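import Pool.Agent.EHD.Defs

/-! # Row S: sublevel sets of a function with an almost constant derivative -/

set_option autoImplicit false

open Filter MeasureTheory Topology Pool.Agent.EHD

namespace Pool.Agent.EHD

theorem difIt62 {g : ℂ → ℂ} (hg : Differentiable ℂ g) (k : ℕ) :
    Differentiable ℂ (iteratedDeriv k g) := by
  have h : ContDiff ℂ ((k + 1 : ℕ) : WithTop ℕ∞) g := hg.contDiff
  exact h.differentiable_iteratedDeriv k (by exact_mod_cast Nat.lt_succ_self k)

theorem leibniz62 {h g : ℂ → ℂ} {a : ℂ} (hg : Differentiable ℂ g)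
    (hgh : ∀ z, h z = h a + (z - a) * g z) (k : ℕ) (z : ℂ) :
    iteratedDeriv (k + 1) h z =
      (z - a) * iteratedDeriv (k + 1) g z + ((k : ℂ) + 1) * iteratedDeriv k g z := by
  induction k generalizing z with
  | zero =>
    have e : h = fun z => h a + (z - a) * g z := funext hgh
    rw [iteratedDeriv_one, iteratedDeriv_one, iteratedDeriv_zero]
    have h1 : HasDerivAt (fun z : ℂ => h a + (z - a) * g z) (1 * g z + (z - a) * deriv g z) z :=
      (((hasDerivAt_id z).sub_const a).mul (hg z).hasDerivAt).const_add _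
    rw [e]
    rw [h1.deriv]
    push_cast
    ring
  | succ k ih =>
    rw [iteratedDeriv_succ (n := k + 1) (f := h), iteratedDeriv_succ (n := k + 1) (f := g)]
    have e : iteratedDeriv (k + 1) h = fun z =>
        (z - a) * iteratedDeriv (k + 1) g z + ((k : ℂ) + 1) * iteratedDeriv k g z := funext ih
    rw [e]
    have h1 : HasDerivAt (fun z : ℂ => (z - a) * iteratedDeriv (k + 1) g z +
        ((k : ℂ) + 1) * iteratedDeriv k g z)
        ((1 * iteratedDeriv (k + 1) g z + (z - a) * deriv (iteratedDeriv (k + 1) g) z) +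
          ((k : ℂ) + 1) * deriv (iteratedDeriv k g) z) z := by
      refine HasDerivAt.add ?_ ?_
      · exact ((hasDerivAt_id z).sub_const a).mul (difIt62 hg (k + 1) z).hasDerivAt
      · exact (difIt62 hg k z).hasDerivAt.const_mul _
    rw [h1.deriv, iteratedDeriv_succ (n := k) (f := g)]
    push_cast
    ring

theorem key62 {h g : ℂ → ℂ} {a : ℂ} (hg : Differentiable ℂ g)
    (hgh : ∀ z, h z = h a + (z - a) * g z) (k : ℕ) {D : Set ℂ} (hD : Convex ℝ D) (ha : a ∈ D)
    {w : ℂ} {η : ℝ} (hw : ∀ z ∈ D, ‖iteratedDeriv (k + 1) h z - w‖ ≤ η) {z : ℂ} (hz : z ∈ D) :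
    ‖iteratedDeriv k g z - w / ((k : ℂ) + 1)‖ ≤ η / ((k : ℝ) + 1) := by
  have hk : ((k : ℂ) + 1) ≠ 0 := by exact_mod_cast Nat.succ_ne_zero k
  have hk' : ((k : ℝ) + 1) ≠ 0 := by positivity
  set ζ : ℝ → ℂ := fun s => a + (s : ℂ) * (z - a) with hζ
  have hζD : ∀ s ∈ Set.Icc (0 : ℝ) 1, ζ s ∈ D := by
    intro s hs
    have h1 := hD ha hz (sub_nonneg.2 hs.2) hs.1 (by ring)
    have e : ζ s = (1 - s) • a + s • z := by
      rw [hζ]
      simp only [Complex.real_smul]
      push_cast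
      ring
    rw [e]
    exact h1
  set φ : ℝ → ℂ := fun s => (s : ℂ) ^ (k + 1) * (iteratedDeriv k g (ζ s) - w / ((k : ℂ) + 1))
    with hφ
  have hζ' : ∀ s : ℝ, HasDerivAt ζ (z - a) s := by
    intro s
    have h1 : HasDerivAt (fun s : ℝ => (s : ℂ)) 1 s := Complex.ofRealCLM.hasDerivAt
    have h2 := (h1.mul_const (z - a)).const_add a
    exact h2.congr_deriv (one_mul _)
  have hφ' : ∀ s : ℝ, HasDerivAt φ ((s : ℂ) ^ k * (iteratedDeriv (k + 1) h (ζ s) - w)) s := by
    intro s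
    have h1 : HasDerivAt (fun s : ℝ => (s : ℂ)) 1 s := Complex.ofRealCLM.hasDerivAt
    have h2 : HasDerivAt (fun s : ℝ => (s : ℂ) ^ (k + 1)) (((k + 1 : ℕ) : ℂ) * (s : ℂ) ^ k * 1) s := by
      exact (h1.fun_pow (k + 1)).congr_deriv (by rw [Nat.add_sub_cancel])
    have h3 : HasDerivAt (fun s : ℝ => iteratedDeriv k g (ζ s))
        (deriv (iteratedDeriv k g) (ζ s) * (z - a)) s :=
      HasDerivAt.comp s (h₂ := iteratedDeriv k g) (difIt62 hg k (ζ s)).hasDerivAt (hζ' s)
    have h4 := h2.mul (h3.sub_const (w / ((k : ℂ) + 1)))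
    refine h4.congr_deriv ?_
    rw [leibniz62 hg hgh k (ζ s), iteratedDeriv_succ (n := k) (f := g)]
    have e : ζ s - a = (s : ℂ) * (z - a) := by rw [hζ]; ring
    rw [e]
    have e2 : w = ((k : ℂ) + 1) * (w / ((k : ℂ) + 1)) := by field_simp
    have e3 : (s : ℂ) ^ k * ((s : ℂ) * (z - a) * deriv (iteratedDeriv k g) (ζ s) +
        ((k : ℂ) + 1) * iteratedDeriv k g (ζ s) - w) =
        (s : ℂ) ^ k * ((s : ℂ) * (z - a) * deriv (iteratedDeriv k g) (ζ s) +
        ((k : ℂ) + 1) * iteratedDeriv k g (ζ s) - ((k : ℂ) + 1) * (w / ((k : ℂ) + 1))) := by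
      rw [← e2]
    rw [e3]
    push_cast
    ring
  have hB : ∀ s : ℝ, HasDerivAt (fun s : ℝ => η * s ^ (k + 1) / ((k : ℝ) + 1)) (η * s ^ k) s := by
    intro s
    have h1 := ((hasDerivAt_pow (k + 1) s).const_mul η).div_const ((k : ℝ) + 1)
    refine h1.congr_deriv ?_
    rw [Nat.add_sub_cancel]
    push_cast
    field_simp
  have hmain := image_norm_le_of_norm_deriv_right_le_deriv_boundary (f := φ) (a := 0) (b := 1)
    (f' := fun s => (s : ℂ) ^ k * (iteratedDeriv (k + 1) h (ζ s) - w))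
    (B := fun s : ℝ => η * s ^ (k + 1) / ((k : ℝ) + 1)) (B' := fun s : ℝ => η * s ^ k)
    (fun s _ => (hφ' s).continuousAt.continuousWithinAt)
    (fun s _ => (hφ' s).hasDerivWithinAt) (by simp [hφ]) hB (by
      intro s hs
      have h1 := hw (ζ s) (hζD s ⟨hs.1, hs.2.le⟩)
      rw [norm_mul, norm_pow, Complex.norm_real, Real.norm_of_nonneg hs.1]
      calc s ^ k * ‖iteratedDeriv (k + 1) h (ζ s) - w‖ ≤ s ^ k * η :=
            mul_le_mul_of_nonneg_left h1 (pow_nonneg hs.1 k)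
        _ = η * s ^ k := by ring)
    (Set.right_mem_Icc.2 zero_le_one)
  have e1 : φ 1 = iteratedDeriv k g z - w / ((k : ℂ) + 1) := by
    rw [hφ, hζ]
    simp
  rw [e1] at hmain
  simpa using hmain

/-- sublevel sets -/
theorem sub_level (m : ℕ) (h : ℂ → ℂ) (hh : Differentiable ℂ h) (D : Set ℂ) (hD : Convex ℝ D)
    (w : ℂ) (δ t : ℝ) (ht : 0 < t) (hw : ∀ z ∈ D, ‖iteratedDeriv m h z - w‖ ≤ ‖w‖ / 2)
    (z : Fin (m + 1) → ℂ) (hz : ∀ i, z i ∈ D) (hsep : ∀ i j, i ≠ j → t ≤ ‖z i - z j‖)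
    (hδ : ∀ i, ‖h (z i)‖ ≤ δ) :
    t ^ m * ‖w‖ ≤ 2 ^ (m + 1) * (m.factorial : ℝ) * δ := by
  induction m generalizing h w δ with
  | zero =>
    have h1 := hw (z 0) (hz 0)
    rw [iteratedDeriv_zero] at h1
    have h2 := hδ 0
    have h3 : ‖w‖ ≤ ‖h (z 0)‖ + ‖h (z 0) - w‖ := by
      have e : w = h (z 0) - (h (z 0) - w) := by ring
      calc ‖w‖ = ‖h (z 0) - (h (z 0) - w)‖ := by rw [← e]
        _ ≤ _ := norm_sub_le _ _
    simp only [pow_zero, one_mul, zero_add, pow_one, Nat.factorial_zero, Nat.cast_one, mul_one]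
    linarith
  | succ m ih =>
    set a := z 0 with ha
    set g := dslope h a with hg
    have hgd : Differentiable ℂ g := by
      have h1 := (Complex.differentiableOn_dslope (f := h) (c := a) (s := Set.univ)
        Filter.univ_mem).2 hh.differentiableOn
      exact differentiableOn_univ.1 h1
    have hgh : ∀ z, h z = h a + (z - a) * g z := by
      intro z
      have h1 := sub_smul_dslope h a z
      rw [smul_eq_mul] at h1
      rw [hg, h1]
      ring
    have hδ0 : 0 ≤ δ := le_trans (norm_nonneg _) (hδ 0)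
    have hw' : ∀ z ∈ D, ‖iteratedDeriv m g z - w / ((m : ℂ) + 1)‖ ≤ ‖w / ((m : ℂ) + 1)‖ / 2 := by
      intro z hzD
      have h1 := key62 hgd hgh m hD (hz 0) hw hzD
      refine h1.trans (le_of_eq ?_)
      have e : ‖((m : ℂ) + 1)‖ = (m : ℝ) + 1 := by
        have : ((m : ℂ) + 1) = (((m : ℝ) + 1 : ℝ) : ℂ) := by push_cast; ring
        rw [this, Complex.norm_real, Real.norm_of_nonneg (by positivity)]
      rw [norm_div, e]
      ring
    have hg2 : ∀ i : Fin (m + 1), ‖g (z i.succ)‖ ≤ 2 * δ / t := by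
      intro i
      have hne : (0 : Fin (m + 2)) ≠ i.succ := (Fin.succ_ne_zero i).symm
      have h1 := hsep i.succ 0 hne.symm
      have h2 : (z i.succ - a) * g (z i.succ) = h (z i.succ) - h a := by
        rw [hgh (z i.succ)]; ring
      have h3 : ‖z i.succ - a‖ * ‖g (z i.succ)‖ ≤ 2 * δ := by
        rw [← norm_mul, h2]
        calc ‖h (z i.succ) - h a‖ ≤ ‖h (z i.succ)‖ + ‖h a‖ := norm_sub_le _ _
          _ ≤ δ + δ := add_le_add (hδ _) (hδ 0)
          _ = 2 * δ := by ring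
      rw [le_div_iff₀ ht]
      have h4 : t * ‖g (z i.succ)‖ ≤ ‖z i.succ - a‖ * ‖g (z i.succ)‖ :=
        mul_le_mul_of_nonneg_right h1 (norm_nonneg _)
      linarith
    have hI := ih g hgd (w / ((m : ℂ) + 1)) (2 * δ / t) hw' (fun i => z i.succ)
      (fun i => hz _) (fun i j hij => hsep _ _ (fun h => hij (Fin.succ_injective _ h))) hg2
    have e : ‖((m : ℂ) + 1)‖ = (m : ℝ) + 1 := by
      have : ((m : ℂ) + 1) = (((m : ℝ) + 1 : ℝ) : ℂ) := by push_cast; ring
      rw [this, Complex.norm_real, Real.norm_of_nonneg (by positivity)]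
    rw [norm_div, e] at hI
    have hm : (0 : ℝ) < (m : ℝ) + 1 := by positivity
    have h5 := mul_le_mul_of_nonneg_right hI (show 0 ≤ t * ((m : ℝ) + 1) by positivity)
    have e6 : t ^ m * (‖w‖ / ((m : ℝ) + 1)) * (t * ((m : ℝ) + 1)) = t ^ (m + 1) * ‖w‖ := by
      field_simp
      ring
    have e7 : 2 ^ (m + 1) * (m.factorial : ℝ) * (2 * δ / t) * (t * ((m : ℝ) + 1)) =
        2 ^ (m + 1 + 1) * ((m + 1).factorial : ℝ) * δ := by
      rw [Nat.factorial_succ]
      push_cast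
      field_simp
      ring
    rw [e6, e7] at h5
    exact h5

end Pool.Agent.EHD
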