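import Pool.Agent.EHD.Low
import Pool.Agent.EHD.Sub

/-!
# Covering sublevel sets of exponential polynomials
-/

open Polynomial Pool.Agent.EHD

namespace Pool.Agent.EHD

theorem iter_le (a : Dat) (C : ℝ) (r : ℕ) :
    ∃ (A : ℕ) (K : ℝ), 0 < K ∧ ∀ m ≤ r, ∀ z, Reg C z → ‖iteratedDeriv m (ev a) z‖ ≤ K * (2 + ‖z‖) ^ A := by
  induction r with
  | zero =>
    obtain ⟨A, K, hK, h⟩ := ev_le a C
    refine ⟨A, K, hK, fun m hm z hz => ?_⟩
    obtain rfl : m = 0 := by omega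
    simpa using h z hz
  | succ r ih =>
    obtain ⟨A, K, hK, h⟩ := ih
    obtain ⟨A', K', hK', h'⟩ := ev_le ((tw 0)^[r + 1] a) C
    refine ⟨A + A', K + K', by positivity, fun m hm z hz => ?_⟩
    have h1 : (1 : ℝ) ≤ 2 + ‖z‖ := by linarith [norm_nonneg z]
    have e1 : (2 + ‖z‖) ^ A ≤ (2 + ‖z‖) ^ (A + A') := pow_le_pow_right₀ h1 (by omega)
    have e2 : (2 + ‖z‖) ^ A' ≤ (2 + ‖z‖) ^ (A + A') := pow_le_pow_right₀ h1 (by omega)
    have e3 : (0 : ℝ) ≤ (2 + ‖z‖) ^ (A + A') := by positivity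
    rcases Nat.lt_or_ge r m with h2 | h2
    · obtain rfl : m = r + 1 := by omega
      rw [iter_ev]
      have := h' z hz
      nlinarith [mul_le_mul_of_nonneg_left e2 hK'.le]
    · have := h m h2 z hz
      nlinarith [mul_le_mul_of_nonneg_left e1 hK.le]

/-- a set without `m + 1` points at mutual distance at least `t` is covered by `m` sets of diameter `2t` -/
theorem cover_sep (S : Set ℂ) (t : ℝ) (m : ℕ)
    (h : ∀ z : Fin (m + 1) → ℂ, (∀ i, z i ∈ S) → (∀ i j, i ≠ j → t ≤ ‖z i - z j‖) → False) :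
    ∃ V : Fin m → Set ℂ, (S ⊆ ⋃ i, V i) ∧ ∀ i, ∀ z ∈ V i, ∀ z' ∈ V i, ‖z - z'‖ ≤ 2 * t := by
  induction m with
  | zero =>
    refine ⟨fun _ => ∅, ?_, fun i => i.elim0⟩
    intro x hx
    exact (h (fun _ => x) (fun _ => hx) (fun i j hij => absurd (Fin.ext (by omega)) hij)).elim
  | succ m ih =>
    by_cases hex : ∃ z : Fin (m + 1) → ℂ, (∀ i, z i ∈ S) ∧ (∀ i j, i ≠ j → t ≤ ‖z i - z j‖)
    · obtain ⟨z, hzS, hz⟩ := hex
      refine ⟨fun i => {x | ‖x - z i‖ ≤ t}, ?_, ?_⟩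
      · intro x hx
        by_contra hcon
        rw [Set.mem_iUnion] at hcon
        push Not at hcon
        have hx' : ∀ i, t < ‖x - z i‖ := fun i => by
          have := hcon i
          exact not_le.mp this
        refine h (Fin.cons x z) ?_ ?_
        · intro i
          refine Fin.cases ?_ (fun j => ?_) i
          · simpa using hx
          · simpa using hzS j
        · intro i j
          refine Fin.cases ?_ (fun i' => ?_) i
          · refine Fin.cases (fun h0 => (h0 rfl).elim) (fun j' _ => ?_) j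
            simpa using (hx' j').le
          · refine Fin.cases (fun _ => ?_) (fun j' hij => ?_) j
            · rw [norm_sub_rev]
              simpa using (hx' i').le
            · have : i' ≠ j' := fun h0 => hij (by rw [h0])
              simpa using hz i' j' this
      · intro i x hx x' hx'
        have h1 : ‖x - z i‖ ≤ t := hx
        have h2 : ‖x' - z i‖ ≤ t := hx'
        calc ‖x - x'‖ = ‖(x - z i) - (x' - z i)‖ := by ring_nf
          _ ≤ ‖x - z i‖ + ‖x' - z i‖ := norm_sub_le _ _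
          _ ≤ 2 * t := by linarith
    · push Not at hex
      obtain ⟨V, hV, hd⟩ := ih (fun z hz hs => by
        obtain ⟨i, j, hij, hlt⟩ := hex z hz
        exact absurd (hs i j hij) (not_le.mpr hlt))
      refine ⟨Fin.cons ∅ V, ?_, ?_⟩
      · intro x hx
        obtain ⟨i, hi⟩ := Set.mem_iUnion.mp (hV hx)
        exact Set.mem_iUnion.mpr ⟨i.succ, by simpa using hi⟩
      · intro i
        refine Fin.cases ?_ (fun j => ?_) i
        · intro x hx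
          simp at hx
        · simpa using hd j

theorem reg_of_near {C : ℝ} (hC : 0 ≤ C) {z₀ z : ℂ} (h0 : |z₀.im| ≤ C * Real.log (2 + ‖z₀‖))
    (h : ‖z - z₀‖ ≤ 1 / (C + 1)) : Reg C z := by
  unfold Reg
  have h1 : |z.im| ≤ |z₀.im| + ‖z - z₀‖ := by
    have : z.im = z₀.im + (z - z₀).im := by simp
    rw [this]
    exact (abs_add_le _ _).trans (add_le_add le_rfl (Complex.abs_im_le_norm _))
  have h2 : Real.log (2 + ‖z₀‖) ≤ Real.log (2 + ‖z‖) + ‖z - z₀‖ := by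
    have h3 : ‖z₀‖ ≤ ‖z‖ + ‖z - z₀‖ := by
      have : z₀ = z - (z - z₀) := by ring
      calc ‖z₀‖ = ‖z - (z - z₀)‖ := by rw [← this]
        _ ≤ _ := norm_sub_le _ _
    have hp : (0 : ℝ) < 2 + ‖z‖ := by positivity
    have hp' : (0 : ℝ) < 2 + ‖z₀‖ := by positivity
    have h4 : 2 + ‖z₀‖ ≤ (2 + ‖z‖) * Real.exp ‖z - z₀‖ := by
      have h5 := Real.add_one_le_exp ‖z - z₀‖
      have h6 := mul_le_mul_of_nonneg_left h5 hp.le
      have h7 : (2 + ‖z‖) * (‖z - z₀‖ + 1) = 2 + ‖z‖ + ‖z - z₀‖ + (1 + ‖z‖) * ‖z - z₀‖ := by ring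
      have h8 : 0 ≤ (1 + ‖z‖) * ‖z - z₀‖ := by positivity
      linarith
    calc Real.log (2 + ‖z₀‖) ≤ Real.log ((2 + ‖z‖) * Real.exp ‖z - z₀‖) := Real.log_le_log hp' h4
      _ = _ := by rw [Real.log_mul hp.ne' (Real.exp_pos _).ne', Real.log_exp]
  have h3 : C * Real.log (2 + ‖z₀‖) ≤ C * Real.log (2 + ‖z‖) + C * ‖z - z₀‖ := by
    rw [← mul_add]
    exact mul_le_mul_of_nonneg_left h2 hC
  have h4 : (C + 1) * ‖z - z₀‖ ≤ 1 := by
    rw [le_div_iff₀ (by positivity)] at h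
    linarith
  linarith

theorem pow_big (x : ℝ) : ∃ n₀ : ℕ, ∀ n ≥ n₀, x ≤ 2 ^ n := by
  obtain ⟨n₀, h⟩ := pow_unbounded_of_one_lt x (one_lt_two : (1 : ℝ) < 2)
  exact ⟨n₀, fun n hn => h.le.trans (pow_le_pow_right₀ one_le_two hn)⟩

theorem cover_core (a : Dat) (ha : a ≠ 0) (C : ℝ) (hC : 0 ≤ C) :
    ∃ r B : ℕ, 1 ≤ B ∧ ∀ T : ℕ, ∃ q n₀ : ℕ, ∀ n ≥ n₀, ∀ D : Set ℂ, Convex ℝ D →
      (∀ z ∈ D, ∀ z' ∈ D, ‖z - z'‖ ≤ 2 * ((2 : ℝ) ^ (B * n))⁻¹) →
      ∃ V : Fin r → Set ℂ,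
        (D ∩ {z | |z.im| ≤ C * Real.log (2 + ‖z‖) ∧ ‖z‖ ≤ 2 ^ (n + 1) ∧ ‖ev a z‖ ≤ ((2 : ℝ) ^ (q * n))⁻¹}
          ⊆ ⋃ i, V i) ∧
        ∀ i, ∀ z ∈ V i, ∀ z' ∈ V i, ‖z - z'‖ ≤ 2 * ((2 : ℝ) ^ (T * n))⁻¹ := by
  obtain ⟨r, A, κ, hκ, hlow⟩ := ev_low C a ha
  obtain ⟨A', K, hK, hup⟩ := iter_le a C (r + 1)
  refine ⟨r, A + A' + 1, by omega, fun T => ?_⟩
  obtain ⟨n₁, h1⟩ := pow_big (4 * K * 4 ^ (A + A') / κ)
  obtain ⟨n₂, h2⟩ := pow_big (2 * (C + 1))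
  obtain ⟨n₃, h3⟩ := pow_big (2 ^ (r + 1) * (r.factorial : ℝ) * 4 ^ A / κ + 1)
  refine ⟨T * r + A + 1, max (max n₁ n₂) (max n₃ 1), fun n hn D hD hdiam => cover_sep _ _ _ ?_⟩
  have hn1 : n₁ ≤ n := le_trans (le_trans (le_max_left _ _) (le_max_left _ _)) hn
  have hn2 : n₂ ≤ n := le_trans (le_trans (le_max_right _ _) (le_max_left _ _)) hn
  have hn3 : n₃ ≤ n := le_trans (le_trans (le_max_left _ _) (le_max_right _ _)) hn
  have hn4 : 1 ≤ n := le_trans (le_trans (le_max_right _ _) (le_max_right _ _)) hn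
  have g1 := h1 n hn1
  have g2 := h2 n hn2
  have g3 := h3 n hn3
  intro z hz hsep
  have hz0 := hz 0
  obtain ⟨hzD, him, hnorm, -⟩ := hz0
  have hreg0 : Reg C (z 0) := by unfold Reg; linarith
  obtain ⟨m, hm, hw⟩ := hlow (z 0) hreg0
  have hN : 2 + ‖z 0‖ ≤ 2 ^ (n + 2) := by
    have : (2 : ℝ) ≤ 2 ^ (n + 1) := by
      calc (2 : ℝ) = 2 ^ 1 := by norm_num
        _ ≤ 2 ^ (n + 1) := pow_le_pow_right₀ one_le_two (by omega)
    calc 2 + ‖z 0‖ ≤ 2 ^ (n + 1) + 2 ^ (n + 1) := by linarith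
      _ = 2 ^ (n + 2) := by ring
  have hw' : κ / (2 ^ (n + 2)) ^ A ≤ ‖iteratedDeriv m (ev a) (z 0)‖ := by
    refine le_trans ?_ hw
    refine div_le_div_of_nonneg_left hκ.le (by positivity) ?_
    exact pow_le_pow_left₀ (by positivity) hN _
  have hρ : 2 * ((2 : ℝ) ^ ((A + A' + 1) * n))⁻¹ ≤ 1 / (C + 1) := by
    have e1 : (2 : ℝ) ^ n ≤ 2 ^ ((A + A' + 1) * n) := pow_le_pow_right₀ one_le_two (by nlinarith)
    rw [← div_eq_mul_inv, div_le_div_iff₀ (by positivity) (by positivity)]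
    linarith
  have hD' : ∀ x ∈ D, Reg C x ∧ 2 + ‖x‖ ≤ 2 ^ (n + 2) := by
    intro x hx
    have hd := (hdiam x hx (z 0) hzD).trans hρ
    refine ⟨reg_of_near hC him hd, ?_⟩
    have e1 : ‖x‖ ≤ ‖z 0‖ + ‖x - z 0‖ := by
      calc ‖x‖ = ‖z 0 + (x - z 0)‖ := by ring_nf
        _ ≤ _ := norm_add_le _ _
    have e2 : 1 / (C + 1) ≤ 1 := by
      rw [div_le_one (by positivity)]; linarith
    have e3 : (4 : ℝ) ≤ 2 ^ (n + 1) := by
      calc (4 : ℝ) = 2 ^ 2 := by norm_num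
        _ ≤ 2 ^ (n + 1) := pow_le_pow_right₀ one_le_two (by omega)
    calc 2 + ‖x‖ ≤ 2 ^ (n + 1) + 2 ^ (n + 1) := by linarith
      _ = 2 ^ (n + 2) := by ring
  have hclose : ∀ x ∈ D, ‖iteratedDeriv m (ev a) x - iteratedDeriv m (ev a) (z 0)‖ ≤
      ‖iteratedDeriv m (ev a) (z 0)‖ / 2 := by
    intro x hx
    have hdiff : ∀ y ∈ D, DifferentiableAt ℂ (iteratedDeriv m (ev a)) y := by
      intro y _
      rw [iter_ev]
      exact differentiable_ev _ y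
    have hder : ∀ y ∈ D, ‖deriv (iteratedDeriv m (ev a)) y‖ ≤ K * (2 ^ (n + 2)) ^ A' := by
      intro y hy
      rw [← iteratedDeriv_succ]
      refine (hup (m + 1) (by omega) y (hD' y hy).1).trans ?_
      refine mul_le_mul_of_nonneg_left ?_ hK.le
      exact pow_le_pow_left₀ (by positivity) (hD' y hy).2 _
    have e1 := hD.norm_image_sub_le_of_norm_deriv_le hdiff hder hzD hx
    refine e1.trans ?_
    have e2 := hdiam x hx (z 0) hzD
    have e3 : K * (2 ^ (n + 2)) ^ A' * ‖x - z 0‖ ≤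
        K * (2 ^ (n + 2)) ^ A' * (2 * ((2 : ℝ) ^ ((A + A' + 1) * n))⁻¹) :=
      mul_le_mul_of_nonneg_left e2 (by positivity)
    refine e3.trans ?_
    have e4 : K * (2 ^ (n + 2)) ^ A' * (2 * ((2 : ℝ) ^ ((A + A' + 1) * n))⁻¹) ≤ κ / (2 ^ (n + 2)) ^ A / 2 := by
      have f1 : ((2 : ℝ) ^ (n + 2)) ^ A' = 4 ^ A' * (2 ^ n) ^ A' := by
        rw [pow_add, mul_pow]; norm_num; ring
      have f2 : ((2 : ℝ) ^ (n + 2)) ^ A = 4 ^ A * (2 ^ n) ^ A := by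
        rw [pow_add, mul_pow]; norm_num; ring
      have f3 : (2 : ℝ) ^ ((A + A' + 1) * n) = (2 ^ n) ^ A * (2 ^ n) ^ A' * 2 ^ n := by
        rw [mul_comm, pow_mul]; ring
      rw [f1, f2, f3]
      rw [div_div, le_div_iff₀ (by positivity)]
      rw [div_le_iff₀ hκ] at g1
      have f4 : K * (4 ^ A' * (2 ^ n) ^ A') * (2 * ((2 ^ n) ^ A * (2 ^ n) ^ A' * 2 ^ n)⁻¹) *
          (4 ^ A * (2 ^ n) ^ A * 2) = 4 * K * 4 ^ (A + A') / 2 ^ n := by
        field_simp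
        ring
      rw [f4, div_le_iff₀ (by positivity)]
      linarith
    linarith
  have hcast : m + 1 ≤ r + 1 := by omega
  have key := sub_level m (ev a) (differentiable_ev a) D hD (iteratedDeriv m (ev a) (z 0))
    (((2 : ℝ) ^ ((T * r + A + 1) * n))⁻¹) (((2 : ℝ) ^ (T * n))⁻¹) (by positivity) hclose
    (fun i => z (Fin.castLE hcast i)) (fun i => (hz _).1)
    (fun i j hij => hsep _ _ (fun h0 => hij (Fin.castLE_injective hcast h0)))
    (fun i => (hz _).2.2.2)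
  have t1 : (((2 : ℝ) ^ (T * n))⁻¹) ^ r ≤ (((2 : ℝ) ^ (T * n))⁻¹) ^ m := by
    refine pow_le_pow_of_le_one (by positivity) ?_ hm
    exact inv_le_one_of_one_le₀ (one_le_pow₀ one_le_two)
  have t2 : (((2 : ℝ) ^ (T * n))⁻¹) ^ r * (κ / (2 ^ (n + 2)) ^ A) ≤
      (((2 : ℝ) ^ (T * n))⁻¹) ^ m * ‖iteratedDeriv m (ev a) (z 0)‖ :=
    mul_le_mul t1 hw' (by positivity) (by positivity)
  have t3 : (2 : ℝ) ^ (m + 1) * (m.factorial : ℝ) * ((2 : ℝ) ^ ((T * r + A + 1) * n))⁻¹ ≤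
      2 ^ (r + 1) * (r.factorial : ℝ) * ((2 : ℝ) ^ ((T * r + A + 1) * n))⁻¹ := by
    refine mul_le_mul_of_nonneg_right ?_ (by positivity)
    refine mul_le_mul (pow_le_pow_right₀ one_le_two (by omega)) ?_ (by positivity) (by positivity)
    exact_mod_cast Nat.factorial_le hm
  have t4 := t2.trans (key.trans t3)
  have f2 : ((2 : ℝ) ^ (n + 2)) ^ A = 4 ^ A * (2 ^ n) ^ A := by
    rw [pow_add, mul_pow]; norm_num; ring
  have f3 : (2 : ℝ) ^ ((T * r + A + 1) * n) = (2 ^ (T * n)) ^ r * (2 ^ n) ^ A * 2 ^ n := by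
    rw [← pow_mul, ← pow_mul, ← pow_add, ← pow_add]
    congr 1
    ring
  rw [f2, f3] at t4
  have t5 : (((2 : ℝ) ^ (T * n))⁻¹) ^ r * (κ / (4 ^ A * (2 ^ n) ^ A)) =
      (κ / 4 ^ A) * ((2 ^ (T * n)) ^ r * (2 ^ n) ^ A)⁻¹ := by
    rw [inv_pow]
    field_simp
  have t6 : (2 : ℝ) ^ (r + 1) * (r.factorial : ℝ) * ((2 ^ (T * n)) ^ r * (2 ^ n) ^ A * 2 ^ n)⁻¹ =
      (2 ^ (r + 1) * (r.factorial : ℝ) / 2 ^ n) * ((2 ^ (T * n)) ^ r * (2 ^ n) ^ A)⁻¹ := by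
    field_simp
  rw [t5, t6] at t4
  have t7 := le_of_mul_le_mul_right t4 (by positivity)
  rw [div_le_div_iff₀ (by positivity) (by positivity)] at t7
  have t8 : 2 ^ (r + 1) * (r.factorial : ℝ) * 4 ^ A / κ < 2 ^ n := by linarith
  rw [div_lt_iff₀ hκ] at t8
  linarith

/-- the grid of squares -/
theorem grid (L ρ : ℝ) (hρ : 0 < ρ) (M : ℕ) (hM : 2 * L ≤ M * ρ) :
    ∃ D : Fin M × Fin M → Set ℂ, (∀ p, Convex ℝ (D p)) ∧
      (∀ p, ∀ z ∈ D p, ∀ z' ∈ D p, ‖z - z'‖ ≤ 2 * ρ) ∧ ∀ z : ℂ, ‖z‖ < L → ∃ p, z ∈ D p := by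
  refine ⟨fun p => Set.Icc (-L + (p.1 : ℕ) * ρ) (-L + ((p.1 : ℕ) + 1) * ρ) ×ℂ
    Set.Icc (-L + (p.2 : ℕ) * ρ) (-L + ((p.2 : ℕ) + 1) * ρ), ?_, ?_, ?_⟩
  · intro p
    have h1 : ∀ s : Set ℝ, Convex ℝ s → Convex ℝ (Complex.re ⁻¹' s) := fun s hs =>
      hs.is_linear_preimage ⟨fun x y => by simp, fun c x => by simp⟩
    have h2 : ∀ s : Set ℝ, Convex ℝ s → Convex ℝ (Complex.im ⁻¹' s) := fun s hs =>
      hs.is_linear_preimage ⟨fun x y => by simp, fun c x => by simp⟩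
    exact (h1 _ (convex_Icc _ _)).inter (h2 _ (convex_Icc _ _))
  · intro p z hz z' hz'
    rw [Complex.mem_reProdIm] at hz hz'
    obtain ⟨⟨a1, a2⟩, ⟨a3, a4⟩⟩ := hz
    obtain ⟨⟨b1, b2⟩, ⟨b3, b4⟩⟩ := hz'
    have e1 : |(z - z').re| ≤ ρ := by
      rw [Complex.sub_re, abs_le]; constructor <;> linarith
    have e2 : |(z - z').im| ≤ ρ := by
      rw [Complex.sub_im, abs_le]; constructor <;> linarith
    exact (Complex.norm_le_abs_re_add_abs_im _).trans (by linarith)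
  · intro z hz
    have key : ∀ x : ℝ, |x| < L → ∃ i : Fin M, x ∈ Set.Icc (-L + (i : ℕ) * ρ) (-L + ((i : ℕ) + 1) * ρ) := by
      intro x hx
      obtain ⟨hx1, hx2⟩ := abs_lt.mp hx
      have h0 : 0 ≤ (x + L) / ρ := div_nonneg (by linarith) hρ.le
      have h1 : ⌊(x + L) / ρ⌋₊ < M := by
        rw [Nat.floor_lt h0, div_lt_iff₀ hρ]
        linarith
      refine ⟨⟨⌊(x + L) / ρ⌋₊, h1⟩, ?_, ?_⟩
      · have := Nat.floor_le h0
        rw [le_div_iff₀ hρ] at this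
        simp only
        linarith
      · have := Nat.lt_floor_add_one ((x + L) / ρ)
        rw [div_lt_iff₀ hρ] at this
        simp only
        linarith
    obtain ⟨i, hi⟩ := key z.re ((Complex.abs_re_le_norm z).trans_lt hz)
    obtain ⟨j, hj⟩ := key z.im ((Complex.abs_im_le_norm z).trans_lt hz)
    exact ⟨(i, j), by rw [Complex.mem_reProdIm]; exact ⟨hi, hj⟩⟩

end Pool.Agent.EHD
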