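import Pool.Agent.EHD.Defs

/-!
# Generic covering lemmas and the step for two near points with the same value
-/

open Filter MeasureTheory Topology Pool.Agent.EHD

namespace Pool.Agent.EHD

/-- a coordinate in an interval of length `2R` lies within `ρ/2` of one of the midpoints -/
theorem cell_mem (R ρ x : ℝ) (hρ : 0 < ρ) (h1 : -R ≤ x) (h2 : x ≤ R) :
    ∃ i : Fin (⌊2 * R / ρ⌋₊ + 1), |x - (-R + ((i : ℕ) + 1 / 2) * ρ)| ≤ ρ / 2 := by
  have h0 : 0 ≤ (x + R) / ρ := div_nonneg (by linarith) hρ.le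
  have hle : ⌊(x + R) / ρ⌋₊ ≤ ⌊2 * R / ρ⌋₊ := by
    apply Nat.floor_le_floor
    apply div_le_div_of_nonneg_right _ hρ.le
    linarith
  refine ⟨⟨⌊(x + R) / ρ⌋₊, by omega⟩, ?_⟩
  have h3 := Nat.floor_le h0
  have h4 := Nat.lt_floor_add_one ((x + R) / ρ)
  rw [le_div_iff₀ hρ] at h3
  rw [div_lt_iff₀ hρ] at h4
  simp only
  rw [abs_le]
  constructor <;> nlinarith

/-- covering a disc by small discs -/
theorem ball_cover (R ρ : ℝ) (hR : 0 ≤ R) (hρ : 0 < ρ) :
    ∃ (N : ℕ) (c : Fin N → ℂ), (N : ℝ) ≤ (2 * R / ρ + 2) ^ 2 ∧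
      Metric.closedBall (0 : ℂ) R ⊆ ⋃ i, Metric.closedBall (c i) ρ := by
  set k := ⌊2 * R / ρ⌋₊ + 1 with hk
  refine ⟨k * k, fun p => ⟨-R + (((finProdFinEquiv.symm p).1 : ℕ) + 1 / 2) * ρ,
    -R + (((finProdFinEquiv.symm p).2 : ℕ) + 1 / 2) * ρ⟩, ?_, ?_⟩
  · have h0 : 0 ≤ 2 * R / ρ := by positivity
    have h1 : (k : ℝ) ≤ 2 * R / ρ + 2 := by
      have := Nat.floor_le h0
      rw [hk]
      push_cast
      linarith
    have h2 : (0 : ℝ) ≤ k := Nat.cast_nonneg k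
    push_cast
    nlinarith
  · intro z hz
    rw [Metric.mem_closedBall, dist_zero_right] at hz
    have hre := (Complex.abs_re_le_norm z).trans hz
    have him := (Complex.abs_im_le_norm z).trans hz
    obtain ⟨i, hi⟩ := cell_mem R ρ z.re hρ (abs_le.mp hre).1 (abs_le.mp hre).2
    obtain ⟨j, hj⟩ := cell_mem R ρ z.im hρ (abs_le.mp him).1 (abs_le.mp him).2
    refine Set.mem_iUnion.mpr ⟨finProdFinEquiv (i, j), ?_⟩
    rw [Metric.mem_closedBall, dist_eq_norm]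
    refine (Complex.norm_le_abs_re_add_abs_im _).trans ?_
    simp only [Equiv.symm_apply_apply, Complex.sub_re, Complex.sub_im]
    linarith

/-- a set without `m + 1` points pairwise at distance at least `t` is covered by `m` discs of radius `t` -/
theorem sep_cover (m : ℕ) (t : ℝ) (_ht : 0 < t) (S : Set ℂ)
    (h : ∀ z : Fin (m + 1) → ℂ, (∀ i, z i ∈ S) → ∃ i j, i ≠ j ∧ ‖z i - z j‖ < t) :
    ∃ (N : ℕ) (c : Fin N → ℂ), N ≤ m ∧ (∀ i, c i ∈ S) ∧ S ⊆ ⋃ i, Metric.ball (c i) t := by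
  induction m with
  | zero =>
    refine ⟨0, Fin.elim0, le_rfl, fun i => i.elim0, ?_⟩
    intro x hx
    obtain ⟨i, j, hij, -⟩ := h (fun _ => x) (fun _ => hx)
    exact absurd (Subsingleton.elim (α := Fin 1) i j) hij
  | succ m ih =>
    by_cases hm : ∀ z : Fin (m + 1) → ℂ, (∀ i, z i ∈ S) → ∃ i j, i ≠ j ∧ ‖z i - z j‖ < t
    · obtain ⟨N, c, hN, hc, hS⟩ := ih hm
      exact ⟨N, c, by omega, hc, hS⟩
    · push Not at hm
      obtain ⟨z, hz, hsep⟩ := hm
      refine ⟨m + 1, z, le_rfl, hz, ?_⟩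
      intro x hx
      obtain ⟨i, j, hij, hlt⟩ := h (Fin.cons x z) (by
        intro i
        refine Fin.cases ?_ (fun i => ?_) i
        · simpa using hx
        · simpa using hz i)
      rw [Set.mem_iUnion]
      rcases Fin.eq_zero_or_eq_succ i with rfl | ⟨i', rfl⟩
      · rcases Fin.eq_zero_or_eq_succ j with rfl | ⟨j', rfl⟩
        · exact absurd rfl hij
        · refine ⟨j', ?_⟩
          rw [Metric.mem_ball, dist_eq_norm]
          simpa using hlt
      · rcases Fin.eq_zero_or_eq_succ j with rfl | ⟨j', rfl⟩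
        · refine ⟨i', ?_⟩
          rw [Metric.mem_ball, dist_eq_norm, norm_sub_rev]
          simpa using hlt
        · exfalso
          have hne : i' ≠ j' := fun e => hij (by rw [e])
          have := hsep i' j' hne
          simp only [Fin.cons_succ] at hlt
          linarith

/-- two different near points with the same value: the derivative is small -/
theorem near_double89 (G G₁ G₂ : ℂ → ℂ) (D : Set ℂ) (hD : Convex ℝ D)
    (h1 : ∀ z ∈ D, HasDerivAt G (G₁ z) z) (h2 : ∀ z ∈ D, HasDerivAt G₁ (G₂ z) z)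
    (M : ℝ) (hM : ∀ z ∈ D, ‖G₂ z‖ ≤ M) (z₁ z₂ : ℂ) (hz₁ : z₁ ∈ D) (hz₂ : z₂ ∈ D)
    (hne : z₁ ≠ z₂) (heq : G z₁ = G z₂) : ‖G₁ z₁‖ ≤ M * ‖z₁ - z₂‖ := by
  have hM0 : 0 ≤ M := (norm_nonneg _).trans (hM z₁ hz₁)
  -- the derivative is almost constant on the segment
  have hseg : segment ℝ z₁ z₂ ⊆ D := hD.segment_subset hz₁ hz₂
  have hG₁ : ∀ z ∈ segment ℝ z₁ z₂, ‖G₁ z - G₁ z₁‖ ≤ M * ‖z₁ - z₂‖ := by
    intro z hz
    have h := Convex.norm_image_sub_le_of_norm_hasDerivWithin_le (f := G₁) (f' := G₂) (s := D)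
      (C := M) (x := z₁) (y := z) (fun w hw => (h2 w hw).hasDerivWithinAt) (fun w hw => hM w hw) hD hz₁
      (hseg hz)
    refine h.trans (mul_le_mul_of_nonneg_left ?_ hM0)
    obtain ⟨a, b, ha, hb, hab, rfl⟩ := hz
    have e : a • z₁ + b • z₂ - z₁ = b • (z₂ - z₁) := by
      have : a = 1 - b := by linarith
      subst this
      simp only [Complex.real_smul]
      push_cast
      ring
    rw [e, norm_smul, Real.norm_eq_abs, abs_of_nonneg hb, norm_sub_rev z₂ z₁]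
    have : b ≤ 1 := by linarith
    nlinarith [norm_nonneg (z₁ - z₂)]
  have hφ := Convex.norm_image_sub_le_of_norm_hasDerivWithin_le
    (f := fun z => G z - G₁ z₁ * z) (f' := fun z => G₁ z - G₁ z₁) (s := segment ℝ z₁ z₂)
    (C := M * ‖z₁ - z₂‖) (x := z₁) (y := z₂)
    (fun w hw => by
      have e1 := (h1 w (hseg hw)).hasDerivWithinAt (s := segment ℝ z₁ z₂)
      have e2 : HasDerivWithinAt (fun z : ℂ => G₁ z₁ * z) (G₁ z₁) (segment ℝ z₁ z₂) w := by
        simpa using ((hasDerivAt_id w).const_mul (G₁ z₁)).hasDerivWithinAt (s := segment ℝ z₁ z₂)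
      exact e1.sub e2)
    hG₁ (convex_segment z₁ z₂) (left_mem_segment ℝ z₁ z₂) (right_mem_segment ℝ z₁ z₂)
  have e : G z₂ - G₁ z₁ * z₂ - (G z₁ - G₁ z₁ * z₁) = G₁ z₁ * (z₁ - z₂) := by
    rw [heq]
    ring
  rw [e, norm_mul, norm_sub_rev z₂ z₁] at hφ
  have hpos : 0 < ‖z₁ - z₂‖ := norm_pos_iff.mpr (sub_ne_zero.mpr hne)
  exact le_of_mul_le_mul_right hφ hpos

end Pool.Agent.EHD
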