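import Mathlib

/-!
# Exponential polynomials with real frequencies: common definitions
-/

namespace Pool.Agent.EHD

open Polynomial

/-- data of an exponential polynomial: finitely many real frequencies with polynomial coefficients -/
abbrev Dat := ℝ →₀ Polynomial ℂ

/-- the exponential polynomial `∑ Q(z) e^{iνz}` of the data -/
noncomputable def ev (a : Dat) (z : ℂ) : ℂ :=
  a.sum fun ν Q => Q.eval z * Complex.exp (Complex.I * ν * z)

/-- the logarithmic region -/
def Reg (C : ℝ) (z : ℂ) : Prop := |z.im| ≤ C * Real.log (2 + ‖z‖) + 1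

/-- `(d/dz - iν₀)` on data -/
noncomputable def tw (ν₀ : ℝ) (a : Dat) : Dat :=
  Finsupp.onFinset a.support (fun ν => derivative (a ν) + C (Complex.I * (ν - ν₀)) * a ν)
    (fun ν h => by
      rw [Finsupp.mem_support_iff]
      rintro h0
      exact h (by simp [h0]))

/-- the zeros of `f` are polynomially separated -/
def Sep (f : ℂ → ℂ) : Prop :=
  ∃ q : ℕ, ∃ C : ℝ, 0 < C ∧ ∀ z₁ z₂ : ℂ, f z₁ = 0 → f z₂ = 0 → z₁ ≠ z₂ →
    C / (1 + ‖z₁‖) ^ q ≤ ‖z₁ - z₂‖

end Pool.Agent.EHD
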