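import Mathlib
import Pool.Agent.EHD.Defs

/-!
# Close pairs of zeros in infinitely many dyadic annuli
-/

set_option autoImplicit false

namespace Pool.Agent.EHD

open Filter Topology Set

/-- the zeros of a nonzero entire function in a closed ball are finite in number -/
theorem zeros_finite62 (f : ℂ → ℂ) (hf : Differentiable ℂ f) (hne : ∃ z, f z ≠ 0) (R : ℝ) :
    ({z : ℂ | f z = 0} ∩ Metric.closedBall 0 R).Finite := by
  by_contra hinf
  obtain ⟨z0, -, hz0⟩ := Set.Infinite.exists_accPt_of_subset_isCompact (K := Metric.closedBall (0:ℂ) R)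
    hinf (isCompact_closedBall _ _) inter_subset_right
  have hfr : ∃ᶠ z in 𝓝[≠] z0, f z = (fun _ : ℂ => (0:ℂ)) z := by
    rw [accPt_iff_frequently_nhdsNE] at hz0
    exact hz0.mono fun z hz => hz.1
  have h1 : AnalyticOnNhd ℂ f univ := (Complex.analyticOnNhd_univ_iff_differentiable).2 hf
  have h2 : AnalyticOnNhd ℂ (fun _ : ℂ => (0:ℂ)) univ := analyticOnNhd_const
  have h3 := h1.eq_of_frequently_eq h2 hfr
  obtain ⟨z, hz⟩ := hne
  exact hz (by rw [h3])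

/-- distinct points of a finite set have a minimal distance -/
theorem finite_sep62 (S : Set ℂ) (hS : S.Finite) :
    ∃ δ : ℝ, 0 < δ ∧ ∀ x ∈ S, ∀ y ∈ S, x ≠ y → δ ≤ ‖x - y‖ := by
  classical
  by_cases hne : (hS.toFinset.offDiag).Nonempty
  · obtain ⟨p, hp, hmin⟩ := Finset.exists_min_image hS.toFinset.offDiag
      (fun p => ‖p.1 - p.2‖) hne
    rw [Finset.mem_offDiag] at hp
    refine ⟨‖p.1 - p.2‖, norm_pos_iff.2 (sub_ne_zero.2 hp.2.2), fun x hx y hy hxy => ?_⟩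
    exact hmin (x, y) (by
      rw [Finset.mem_offDiag]
      exact ⟨hS.mem_toFinset.2 hx, hS.mem_toFinset.2 hy, hxy⟩)
  · refine ⟨1, one_pos, fun x hx y hy hxy => ?_⟩
    exact absurd ⟨(x, y), by
      rw [Finset.mem_offDiag]
      exact ⟨hS.mem_toFinset.2 hx, hS.mem_toFinset.2 hy, hxy⟩⟩ hne

/-- if the zeros of a nonzero entire function are not polynomially separated, then for every `q`
infinitely many dyadic annuli contain a zero with another zero at distance at most `2^(-qn)` -/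
theorem freq (f : ℂ → ℂ) (hf : Differentiable ℂ f) (hne : ∃ z, f z ≠ 0) (hS : ¬ Sep f) (q : ℕ) :
    ∃ᶠ n : ℕ in Filter.atTop, ∃ z₁ z₂ : ℂ, f z₁ = 0 ∧ f z₂ = 0 ∧ z₁ ≠ z₂ ∧ 2 ^ n ≤ ‖z₁‖ ∧
      ‖z₁‖ < 2 ^ (n + 1) ∧ ‖z₂ - z₁‖ ≤ ((2 : ℝ) ^ (q * n))⁻¹ := by
  rw [Filter.frequently_atTop]
  intro N
  obtain ⟨δ, hδ, hsep⟩ := finite_sep62 _ (zeros_finite62 f hf hne ((2:ℝ) ^ N + 1))
  have hC : 0 < min 1 δ := lt_min one_pos hδ
  unfold Sep at hS
  push Not at hS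
  obtain ⟨z₁, z₂, h1, h2, h12, hlt⟩ := hS q (min 1 δ) hC
  have hpow : (1:ℝ) ≤ (1 + ‖z₁‖) ^ q := one_le_pow₀ (by linarith [norm_nonneg z₁])
  have hlt' : ‖z₁ - z₂‖ < min 1 δ := lt_of_lt_of_le hlt (div_le_self hC.le hpow)
  have hbig : (2:ℝ) ^ N ≤ ‖z₁‖ := by
    by_contra hsmall
    push Not at hsmall
    have h2n : ‖z₂‖ ≤ 2 ^ N + 1 := by
      have : ‖z₂‖ ≤ ‖z₁‖ + ‖z₁ - z₂‖ := by
        have := norm_sub_norm_le z₂ z₁
        rw [norm_sub_rev] at this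
        linarith
      linarith [min_le_left 1 δ]
    have := hsep z₁ ⟨h1, by simpa using (by linarith : ‖z₁‖ ≤ 2 ^ N + 1)⟩ z₂
      ⟨h2, by simpa using h2n⟩ h12
    linarith [min_le_right 1 δ]
  have h1N : (1:ℝ) ≤ 2 ^ N := one_le_pow₀ (by norm_num)
  obtain ⟨n, hn1, hn2⟩ := exists_nat_pow_near (le_trans h1N hbig) (by norm_num : (1:ℝ) < 2)
  refine ⟨n, ?_, z₁, z₂, h1, h2, h12, hn1, hn2, ?_⟩
  · have : (2:ℝ) ^ N < 2 ^ (n + 1) := lt_of_le_of_lt hbig hn2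
    have := (pow_lt_pow_iff_right₀ (by norm_num : (1:ℝ) < 2)).1 this
    show N ≤ n
    omega
  · rw [norm_sub_rev]
    refine hlt.le.trans ?_
    have hp : (0:ℝ) < 2 ^ (q * n) := by positivity
    have hle : (2:ℝ) ^ (q * n) ≤ (1 + ‖z₁‖) ^ q := by
      rw [mul_comm, pow_mul]
      exact pow_le_pow_left₀ (by positivity) (by linarith) q
    calc min 1 δ / (1 + ‖z₁‖) ^ q ≤ 1 / (1 + ‖z₁‖) ^ q := by
          gcongr
          exact min_le_left 1 δ
      _ ≤ 1 / 2 ^ (q * n) := by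
          gcongr
      _ = ((2:ℝ) ^ (q * n))⁻¹ := one_div _

end Pool.Agent.EHD
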