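import Pool.Agent.EHD.Near

/-!
# The degenerate direction: if `z b' - k b = 0` then `b` is a multiple of `z^k`
-/

open Filter Topology Pool.Agent.EHD

namespace Pool.Agent.EHD

/-- if the Euler data vanish, the zeros of `b + c z^k` are trivially separated -/
theorem eul_zero (b : Dat) (k : ℕ) (h : eul k b = 0) (c : ℂ) (hne : ∃ z, ev b z + c * z ^ k ≠ 0) :
    Sep (fun z => ev b z + c * z ^ k) := by
  have hev0 : ∀ z, ev (eul k b) z = 0 := by
    intro z
    rw [h, ev_sum 0 ∅ (by simp)]
    simp
  have hconn : IsPreconnected ({0}ᶜ : Set ℂ) :=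
    (isConnected_compl_singleton_of_one_lt_rank (by simp [Complex.rank_real_complex]) 0).isPreconnected
  have hder : ∀ z ∈ ({0}ᶜ : Set ℂ), HasDerivAt (fun z => -ev b z / z ^ k) 0 z := by
    intro z hz
    have h1 := hasDerivAt_G b k (z := z) (by simpa using hz)
    rw [hev0 z] at h1
    simpa using h1
  have hconst : ∀ z : ℂ, z ≠ 0 → ev b z = ev b 1 * z ^ k := by
    intro z hz
    have h2 := (isOpen_compl_singleton (x := (0 : ℂ))).is_const_of_deriv_eq_zero hconn
      (f := fun z => -ev b z / z ^ k)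
      (fun w hw => (hder w hw).differentiableAt.differentiableWithinAt)
      (fun w hw => (hder w hw).deriv) (x := z) (y := 1) (by simpa using hz) (by simp)
    simp only [one_pow, div_one] at h2
    have h3 : z ^ k ≠ 0 := pow_ne_zero k hz
    rw [div_eq_iff h3] at h2
    linear_combination -h2
  have hall : ∀ z : ℂ, ev b z = ev b 1 * z ^ k := by
    have hc1 : Continuous (ev b) := (differentiable_ev b).continuous
    have hc2 : Continuous (fun z : ℂ => ev b 1 * z ^ k) := by fun_prop
    have hd : Dense ({0}ᶜ : Set ℂ) := dense_compl_singleton 0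
    have := Continuous.ext_on hd hc1 hc2 (fun z hz => hconst z (by simpa using hz))
    intro z
    exact congrFun this z
  refine ⟨0, 1, one_pos, ?_⟩
  intro z₁ z₂ h₁ h₂ h₁₂
  exfalso
  obtain ⟨w, hw⟩ := hne
  have hs : ev b 1 + c ≠ 0 := by
    intro h0
    apply hw
    rw [hall w, ← add_mul, h0, zero_mul]
  simp only at h₁ h₂
  rw [hall z₁, ← add_mul] at h₁
  rw [hall z₂, ← add_mul] at h₂
  have e1 : z₁ = 0 := by
    rcases mul_eq_zero.mp h₁ with h3 | h3
    · exact absurd h3 hs
    · exact eq_zero_of_pow_eq_zero h3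
  have e2 : z₂ = 0 := by
    rcases mul_eq_zero.mp h₂ with h3 | h3
    · exact absurd h3 hs
    · exact eq_zero_of_pow_eq_zero h3
  exact h₁₂ (e1.trans e2.symm)

end Pool.Agent.EHD
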