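import Pool.Agent.EHD.Defs

/-!
# Zeros of exponential polynomials lie in a logarithmic region
-/

namespace Pool.Agent.EHD

open Filter Polynomial

lemma eval_upper (Q : Polynomial ℂ) :
    ∃ K : ℝ, 0 ≤ K ∧ ∀ z : ℂ, ‖Q.eval z‖ ≤ K * (2 + ‖z‖) ^ Q.natDegree := by
  refine ⟨∑ n ∈ Finset.range (Q.natDegree + 1), ‖Q.coeff n‖,
    Finset.sum_nonneg fun _ _ => norm_nonneg _, fun z => ?_⟩
  rw [Polynomial.eval_eq_sum_range, Finset.sum_mul]
  refine (norm_sum_le _ _).trans (Finset.sum_le_sum fun n hn => ?_)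
  rw [norm_mul, norm_pow]
  refine mul_le_mul_of_nonneg_left ?_ (norm_nonneg _)
  have h1 : n ≤ Q.natDegree := Nat.lt_succ_iff.1 (Finset.mem_range.1 hn)
  have h0 := norm_nonneg z
  calc ‖z‖ ^ n ≤ (2 + ‖z‖) ^ n := pow_le_pow_left₀ h0 (by linarith) n
    _ ≤ _ := pow_le_pow_right₀ (by linarith) h1

lemma sum_upper (s : Finset ℝ) (Q : ℝ → Polynomial ℂ) :
    ∃ (A : ℕ) (M : ℝ), 0 < M ∧ ∀ z : ℂ, ∑ ν ∈ s, ‖(Q ν).eval z‖ ≤ M * (2 + ‖z‖) ^ A := by
  classical
  induction s using Finset.induction_on with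
  | empty => exact ⟨0, 1, one_pos, fun z => by simp⟩
  | insert ν s hν ih =>
    obtain ⟨A, M, hM, h⟩ := ih
    obtain ⟨K, hK, h'⟩ := eval_upper (Q ν)
    refine ⟨max A (Q ν).natDegree, K + M, by linarith, fun z => ?_⟩
    rw [Finset.sum_insert hν, add_mul]
    have h0 := norm_nonneg z
    refine add_le_add ((h' z).trans ?_) ((h z).trans ?_)
    · exact mul_le_mul_of_nonneg_left (pow_le_pow_right₀ (by linarith) (le_max_right _ _)) hK
    · exact mul_le_mul_of_nonneg_left (pow_le_pow_right₀ (by linarith) (le_max_left _ _)) hM.le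

lemma eval_lower (Q : Polynomial ℂ) (hQ : Q ≠ 0) :
    ∃ κ R : ℝ, 0 < κ ∧ 0 ≤ R ∧ ∀ z : ℂ, R ≤ ‖z‖ → κ ≤ ‖Q.eval z‖ := by
  rcases lt_or_ge 0 Q.degree with h | h
  · have h1 : Tendsto (fun z : ℂ => ‖Q.eval z‖) (comap (fun z : ℂ => ‖z‖) atTop) atTop :=
      Polynomial.tendsto_norm_atTop Q h (z := fun z => z) tendsto_comap
    have h2 := h1.eventually_ge_atTop 1
    rw [eventually_comap] at h2
    obtain ⟨R, hR⟩ := eventually_atTop.1 h2
    exact ⟨1, max R 0, one_pos, le_max_right _ _,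
      fun z hz => hR ‖z‖ ((le_max_left _ _).trans hz) z rfl⟩
  · rw [Polynomial.eq_C_of_degree_le_zero h] at hQ ⊢
    have h1 : Q.coeff 0 ≠ 0 := by
      intro h0
      exact hQ (by rw [h0, map_zero])
    exact ⟨‖Q.coeff 0‖, 0, norm_pos_iff.2 h1, le_rfl, fun z _ => by simp⟩

/-- the upper half plane -/
lemma zero_up (s : Finset ℝ) (hs : s.Nonempty) (Q : ℝ → Polynomial ℂ) (hQ : ∀ ν ∈ s, Q ν ≠ 0) :
    ∃ C : ℝ, 0 ≤ C ∧ ∀ z : ℂ,
      ∑ ν ∈ s, (Q ν).eval z * Complex.exp (Complex.I * (ν : ℝ) * z) = 0 →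
      z.im ≤ C * Real.log (2 + ‖z‖) := by
  classical
  set μ := s.min' hs with hμ
  have hμs : μ ∈ s := s.min'_mem hs
  obtain ⟨g, hg, hgap⟩ : ∃ g : ℝ, 0 < g ∧ ∀ ν ∈ s.erase μ, g ≤ ν - μ := by
    rcases (s.erase μ).eq_empty_or_nonempty with h | h
    · exact ⟨1, one_pos, by rw [h]; simp⟩
    · refine ⟨(s.erase μ).min' h - μ, ?_, fun ν hν => ?_⟩
      · have h1 := (s.erase μ).min'_mem h
        rw [Finset.mem_erase] at h1
        have h2 := s.min'_le _ h1.2
        rw [← hμ] at h2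
        have h3 := lt_of_le_of_ne h2 (Ne.symm h1.1)
        linarith
      · have := (s.erase μ).min'_le ν hν
        linarith
  obtain ⟨A, M, hM, hup⟩ := sum_upper (s.erase μ) Q
  obtain ⟨κ, R, hκ, hR, hlow⟩ := eval_lower (Q μ) (hQ μ hμs)
  have hlog2 : 0 < Real.log 2 := Real.log_pos (by norm_num)
  refine ⟨R / Real.log 2 + (|Real.log (M / κ)| / (g * Real.log 2) + A / g), by positivity,
    fun z hz => ?_⟩
  have hz0 := norm_nonneg z
  set L := Real.log (2 + ‖z‖) with hL
  have hL2 : Real.log 2 ≤ L := Real.log_le_log (by norm_num) (by linarith)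
  have hL0 : 0 < L := lt_of_lt_of_le hlog2 hL2
  have hR1 : R ≤ R / Real.log 2 * L := by
    rw [div_mul_eq_mul_div, le_div_iff₀ hlog2]
    exact mul_le_mul_of_nonneg_left hL2 hR
  have hX : 0 ≤ (|Real.log (M / κ)| / (g * Real.log 2) + A / g) * L := by positivity
  rcases le_total z.im 0 with hy | hy
  · refine hy.trans ?_
    rw [add_mul]
    linarith
  rcases le_total ‖z‖ R with hzR | hzR
  · have h1 : z.im ≤ ‖z‖ := (le_abs_self _).trans (Complex.abs_im_le_norm z)
    rw [add_mul]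
    linarith
  · -- the dominating term
    have h1 : (Q μ).eval z = -∑ ν ∈ s.erase μ,
        (Q ν).eval z * Complex.exp (Complex.I * ((ν - μ : ℝ) : ℂ) * z) := by
      rw [← Finset.add_sum_erase s _ hμs] at hz
      have h2 : (Q μ).eval z * Complex.exp (Complex.I * (μ : ℝ) * z) *
          Complex.exp (-(Complex.I * (μ : ℝ) * z)) = (Q μ).eval z := by
        rw [mul_assoc, ← Complex.exp_add, add_neg_cancel, Complex.exp_zero, mul_one]
      have h3 : (∑ ν ∈ s.erase μ, (Q ν).eval z * Complex.exp (Complex.I * (ν : ℝ) * z)) *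
          Complex.exp (-(Complex.I * (μ : ℝ) * z)) = ∑ ν ∈ s.erase μ,
        (Q ν).eval z * Complex.exp (Complex.I * ((ν - μ : ℝ) : ℂ) * z) := by
        rw [Finset.sum_mul]
        refine Finset.sum_congr rfl fun ν _ => ?_
        rw [mul_assoc, ← Complex.exp_add]
        congr 2
        push_cast
        ring
      rw [← h2, ← h3, eq_neg_of_add_eq_zero_left hz, neg_mul]
    have h2 : κ ≤ Real.exp (-(g * z.im)) * (M * (2 + ‖z‖) ^ A) := by
      refine (hlow z hzR).trans ?_
      rw [h1, norm_neg]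
      refine (norm_sum_le _ _).trans ?_
      refine le_trans ?_ (mul_le_mul_of_nonneg_left (hup z) (Real.exp_pos _).le)
      rw [Finset.mul_sum]
      refine Finset.sum_le_sum fun ν hν => ?_
      rw [norm_mul, Complex.norm_exp, mul_comm]
      refine mul_le_mul_of_nonneg_right (Real.exp_le_exp.2 ?_) (norm_nonneg _)
      have h3 : (Complex.I * ((ν - μ : ℝ) : ℂ) * z).re = -((ν - μ) * z.im) := by
        rw [mul_assoc, Complex.I_mul_re, Complex.im_ofReal_mul]
      rw [h3]
      have := mul_le_mul_of_nonneg_right (hgap ν hν) hy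
      linarith
    have h3 : g * z.im ≤ Real.log (M / κ) + A * L := by
      have h4 : Real.exp (g * z.im) ≤ M / κ * (2 + ‖z‖) ^ A := by
        rw [Real.exp_neg, inv_mul_eq_div, le_div_iff₀ (Real.exp_pos _)] at h2
        rw [div_mul_eq_mul_div, le_div_iff₀ hκ]
        linarith
      have h5 := Real.log_le_log (Real.exp_pos _) h4
      rw [Real.log_exp, Real.log_mul (by positivity) (by positivity), Real.log_pow] at h5
      exact h5
    have h4 : |Real.log (M / κ)| ≤ |Real.log (M / κ)| / Real.log 2 * L := by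
      rw [div_mul_eq_mul_div, le_div_iff₀ hlog2]
      exact mul_le_mul_of_nonneg_left hL2 (abs_nonneg _)
    have h5 : g * z.im ≤ g * ((|Real.log (M / κ)| / (g * Real.log 2) + A / g) * L) := by
      have h6 : g * ((|Real.log (M / κ)| / (g * Real.log 2) + A / g) * L) =
          |Real.log (M / κ)| / Real.log 2 * L + A * L := by
        field_simp
      rw [h6]
      have := le_abs_self (Real.log (M / κ))
      linarith
    have h6 := le_of_mul_le_mul_left h5 hg
    have h7 : 0 ≤ R / Real.log 2 * L := hR.trans hR1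
    rw [add_mul]
    linarith

theorem ev_zero (a : Dat) (ha : a ≠ 0) :
    ∃ C : ℝ, 0 ≤ C ∧ ∀ z, ev a z = 0 → |z.im| ≤ C * Real.log (2 + ‖z‖) := by
  classical
  have hs : a.support.Nonempty := Finsupp.support_nonempty_iff.2 ha
  obtain ⟨C₁, hC₁, h₁⟩ := zero_up a.support hs a (fun ν hν => Finsupp.mem_support_iff.1 hν)
  obtain ⟨C₂, hC₂, h₂⟩ := zero_up (a.support.image fun ν => -ν) (hs.image _)
    (fun ν => (a (-ν)).comp (-X)) (by
      intro ν hν
      obtain ⟨ν', hν', rfl⟩ := Finset.mem_image.1 hν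
      rw [neg_neg]
      intro h0
      refine Finsupp.mem_support_iff.1 hν' ?_
      have h1 := congrArg (fun P : Polynomial ℂ => P.comp (-X)) h0
      simpa [Polynomial.comp_assoc] using h1)
  refine ⟨max C₁ C₂, le_max_of_le_left hC₁, fun z hz => ?_⟩
  have hL : 0 ≤ Real.log (2 + ‖z‖) := Real.log_nonneg (by linarith [norm_nonneg z])
  rw [abs_le]
  constructor
  · have h3 := h₂ (-z) (by
      rw [Finset.sum_image (fun x _ y _ h => neg_injective h), ← hz]
      unfold ev Finsupp.sum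
      refine Finset.sum_congr rfl fun ν _ => ?_
      rw [neg_neg, Polynomial.eval_comp]
      congr 1
      · simp
      · congr 1
        push_cast
        ring)
    rw [norm_neg, Complex.neg_im] at h3
    have h4 := mul_le_mul_of_nonneg_right (le_max_right C₁ C₂) hL
    linarith
  · exact (h₁ z hz).trans (mul_le_mul_of_nonneg_right (le_max_left _ _) hL)

end Pool.Agent.EHD
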