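import Pool.Agent.EHD.Main
import Pool.Agent.EHD.Freq
import Pool.Agent.EHD.Triv
import Pool.Agent.EHD.Zero

/-!
# The exceptional set of parameters has Hausdorff dimension zero
-/

open Polynomial Pool.Agent.EHD MeasureTheory
open scoped NNReal ENNReal

namespace Pool.Agent.EHD

theorem dimH_Ex (b : Dat) (k : ℕ) (C : ℝ) (hC : 0 ≤ C) : dimH (Ex b k C) = 0 := by
  by_cases hb : eul k b = 0
  · have : Ex b k C = ∅ := by
      rw [Set.eq_empty_iff_forall_notMem]
      rintro c ⟨h1, -, h3⟩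
      exact h3 (eul_zero b k hb c h1)
    rw [this, dimH_empty]
  · refine le_antisymm (dimH_le fun d' hd' => ?_) zero_le
    rcases eq_or_ne d' 0 with h0 | h0
    · rw [h0]; simp
    · exfalso
      have hs : (0 : ℝ) < d' := by exact_mod_cast pos_iff_ne_zero.mpr h0
      have hz := haus_Ex b k hb C hC (fun c hc q => ?_) d' hs
      · rw [hz] at hd'
        exact absurd hd' (by simp)
      · exact freq (fun z => ev b z + c * z ^ k)
          ((differentiable_ev b).add ((differentiable_id.pow k).const_mul c)) hc.1 hc.2.2 q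

/-- the data of `ev b + c z^k` -/
theorem zero_reg (b : Dat) (k : ℕ) (c : ℂ) (hne : ∃ z, ev b z + c * z ^ k ≠ 0) :
    ∃ C : ℕ, ∀ z, ev b z + c * z ^ k = 0 → |z.im| ≤ C * Real.log (2 + ‖z‖) := by
  have h1 : ∀ z, ev (b + Finsupp.single 0 (Polynomial.C c * X ^ k)) z = ev b z + c * z ^ k := by
    intro z
    rw [ev_add, ev_single]
    simp
  have h2 : b + Finsupp.single 0 (Polynomial.C c * X ^ k) ≠ 0 := by
    intro h0
    obtain ⟨z, hz⟩ := hne
    rw [← h1, h0] at hz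
    exact hz (by simp [ev])
  obtain ⟨C, hC, h⟩ := ev_zero _ h2
  refine ⟨⌈C⌉₊, fun z hz => ?_⟩
  rw [← h1] at hz
  refine (h z hz).trans (mul_le_mul_of_nonneg_right (Nat.le_ceil C) (Real.log_nonneg ?_))
  linarith [norm_nonneg z]

theorem dim_zero (b : Dat) (k : ℕ) :
    dimH {c : ℂ | (∃ z, ev b z + c * z ^ k ≠ 0) ∧ ¬ Sep (fun z => ev b z + c * z ^ k)} = 0 := by
  refine le_antisymm ?_ zero_le
  have h1 : {c : ℂ | (∃ z, ev b z + c * z ^ k ≠ 0) ∧ ¬ Sep (fun z => ev b z + c * z ^ k)} ⊆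
      ⋃ C : ℕ, Ex b k C := by
    rintro c ⟨hne, hS⟩
    obtain ⟨C, hC⟩ := zero_reg b k c hne
    exact Set.mem_iUnion.mpr ⟨C, hne, hC, hS⟩
  refine (dimH_mono h1).trans ?_
  rw [dimH_iUnion]
  exact iSup_le fun C => (dimH_Ex b k C (Nat.cast_nonneg C)).le

end Pool.Agent.EHD
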