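import Mathlib

/-!
# An exponential sum with explicit critical points
-/

namespace Pool.Agent.EHD

/-- the example -/
noncomputable def gex (z : ℂ) : ℂ :=
  Complex.exp (Complex.I * (Real.sqrt 2 : ℝ) * z) + Complex.exp (Complex.I * (Real.sqrt 3 : ℝ) * z)
    - (Real.sqrt 2 : ℝ) / 4 * (Complex.exp (Complex.I * ((Real.sqrt 2 + 2 : ℝ) : ℂ) * z)
        - Complex.exp (Complex.I * ((Real.sqrt 2 - 2 : ℝ) : ℂ) * z))
    - (Real.sqrt 3 : ℝ) / 4 * (Complex.exp (Complex.I * ((Real.sqrt 3 + 2 : ℝ) : ℂ) * z)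
        - Complex.exp (Complex.I * ((Real.sqrt 3 - 2 : ℝ) : ℂ) * z))

theorem hexp (a z : ℂ) : HasDerivAt (fun z : ℂ => Complex.exp (Complex.I * a * z))
    (Complex.exp (Complex.I * a * z) * (Complex.I * a)) z := by
  have h4 : HasDerivAt (fun z : ℂ => Complex.I * a * z) (Complex.I * a) z := by
    simpa using (hasDerivAt_id z).const_mul (Complex.I * a)
  exact h4.cexp

theorem gex_hasDeriv (z : ℂ) : HasDerivAt gex
    (Complex.exp (Complex.I * (Real.sqrt 2 : ℝ) * z) * (Complex.I * (Real.sqrt 2 : ℝ)) +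
      Complex.exp (Complex.I * (Real.sqrt 3 : ℝ) * z) * (Complex.I * (Real.sqrt 3 : ℝ))
    - (Real.sqrt 2 : ℝ) / 4 *
      (Complex.exp (Complex.I * ((Real.sqrt 2 + 2 : ℝ) : ℂ) * z) * (Complex.I * ((Real.sqrt 2 + 2 : ℝ) : ℂ))
        - Complex.exp (Complex.I * ((Real.sqrt 2 - 2 : ℝ) : ℂ) * z) * (Complex.I * ((Real.sqrt 2 - 2 : ℝ) : ℂ)))
    - (Real.sqrt 3 : ℝ) / 4 *
      (Complex.exp (Complex.I * ((Real.sqrt 3 + 2 : ℝ) : ℂ) * z) * (Complex.I * ((Real.sqrt 3 + 2 : ℝ) : ℂ))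
        - Complex.exp (Complex.I * ((Real.sqrt 3 - 2 : ℝ) : ℂ) * z) * (Complex.I * ((Real.sqrt 3 - 2 : ℝ) : ℂ)))) z :=
  (((hexp _ z).add (hexp _ z)).sub (((hexp _ z).sub (hexp _ z)).const_mul _)).sub
    (((hexp _ z).sub (hexp _ z)).const_mul _)

theorem gex_diff : Differentiable ℂ gex := fun z => (gex_hasDeriv z).differentiableAt

/-- at the points `πn` the factor `e^{± 2iz}` is one -/
theorem shift (a : ℝ) (e : ℤ) (n : ℕ) :
    Complex.exp (Complex.I * ((a + 2 * e : ℝ) : ℂ) * ((Real.pi * n : ℝ) : ℂ)) =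
      Complex.exp (Complex.I * (a : ℂ) * ((Real.pi * n : ℝ) : ℂ)) := by
  have h1 : Complex.I * ((a + 2 * e : ℝ) : ℂ) * ((Real.pi * n : ℝ) : ℂ) =
      Complex.I * (a : ℂ) * ((Real.pi * n : ℝ) : ℂ) + ((e * n : ℤ) : ℂ) * (2 * Real.pi * Complex.I) := by
    push_cast
    ring
  rw [h1, Complex.exp_add, Complex.exp_int_mul_two_pi_mul_I, mul_one]

theorem shift_p (a : ℝ) (n : ℕ) :
    Complex.exp (Complex.I * ((a + 2 : ℝ) : ℂ) * ((Real.pi * n : ℝ) : ℂ)) =
      Complex.exp (Complex.I * (a : ℂ) * ((Real.pi * n : ℝ) : ℂ)) := by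
  have := shift a 1 n
  simpa using this

theorem shift_m (a : ℝ) (n : ℕ) :
    Complex.exp (Complex.I * ((a - 2 : ℝ) : ℂ) * ((Real.pi * n : ℝ) : ℂ)) =
      Complex.exp (Complex.I * (a : ℂ) * ((Real.pi * n : ℝ) : ℂ)) := by
  have := shift a (-1) n
  have h : a + 2 * ((-1 : ℤ) : ℝ) = a - 2 := by push_cast; ring
  rw [h] at this
  exact this

theorem gex_deriv (n : ℕ) : deriv gex ((Real.pi * n : ℝ) : ℂ) = 0 := by
  rw [(gex_hasDeriv _).deriv, shift_p, shift_m, shift_p, shift_m]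
  push_cast
  ring

theorem gex_val (n : ℕ) : gex ((Real.pi * n : ℝ) : ℂ) =
    Complex.exp (Complex.I * ((2 * Real.pi * (Real.sqrt 2 / 2) * n : ℝ) : ℂ)) +
      Complex.exp (Complex.I * ((2 * Real.pi * (Real.sqrt 3 / 2) * n : ℝ) : ℂ)) := by
  unfold gex
  rw [shift_p, shift_m, shift_p, shift_m]
  have h : ∀ a : ℝ, Complex.I * ((2 * Real.pi * (a / 2) * n : ℝ) : ℂ) =
      Complex.I * (a : ℂ) * ((Real.pi * n : ℝ) : ℂ) := by
    intro a
    push_cast
    ring
  rw [h, h]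
  ring

/-- linear independence of 1, √2/2, √3/2 -/
theorem sqrt_ind : ∀ a b c : ℤ, (a : ℝ) * (Real.sqrt 2 / 2) + b * (Real.sqrt 3 / 2) = c → a = 0 ∧ b = 0 := by
  intro a b c h
  have h2 : Real.sqrt 2 ^ 2 = 2 := Real.sq_sqrt (by norm_num)
  have h3 : Real.sqrt 3 ^ 2 = 3 := Real.sq_sqrt (by norm_num)
  have e : (a : ℝ) * Real.sqrt 2 + b * Real.sqrt 3 = 2 * c := by linarith
  -- squares
  have e1 : (2 * (b : ℝ) * (2 * c)) * Real.sqrt 3 = 4 * (c : ℝ) ^ 2 + 3 * b ^ 2 - 2 * a ^ 2 := by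
    have : (a : ℝ) * Real.sqrt 2 = 2 * c - b * Real.sqrt 3 := by linarith
    have h4 : ((a : ℝ) * Real.sqrt 2) ^ 2 = (2 * c - b * Real.sqrt 3) ^ 2 := by rw [this]
    rw [mul_pow, h2] at h4
    nlinarith
  have irr3 : Irrational (Real.sqrt 3) := by
    have := Nat.Prime.irrational_sqrt (show Nat.Prime 3 by norm_num)
    simpa using this
  have irr2 : Irrational (Real.sqrt 2) := irrational_sqrt_two
  have irr6 : Irrational (Real.sqrt 6) := by
    have h6 : ¬ IsSquare (6 : ℕ) := by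
      rintro ⟨m, hm⟩
      have : m ≤ 2 := by nlinarith
      interval_cases m <;> omega
    have := (irrational_sqrt_natCast_iff (n := 6)).mpr h6
    simpa using this
  by_cases hbc : b * c = 0
  · rcases mul_eq_zero.mp hbc with hb | hc
    · subst hb
      refine ⟨?_, rfl⟩
      by_contra ha
      have e2 : Real.sqrt 2 = ((2 * c / a : ℚ) : ℝ) := by
        push_cast
        have : (a : ℝ) ≠ 0 := by exact_mod_cast ha
        field_simp
        push_cast at e
        linarith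
      exact irr2 ⟨_, e2.symm⟩
    · subst hc
      by_cases hb : b = 0
      · subst hb
        refine ⟨?_, rfl⟩
        have : (a : ℝ) * Real.sqrt 2 = 0 := by push_cast at e; linarith
        rcases mul_eq_zero.mp this with h4 | h4
        · exact_mod_cast h4
        · exact absurd h4 (by positivity)
      · exfalso
        have h6 : Real.sqrt 6 = Real.sqrt 2 * Real.sqrt 3 := by
          rw [← Real.sqrt_mul (by norm_num)]; norm_num
        have e2 : (a : ℝ) * Real.sqrt 6 = -3 * b := by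
          rw [h6]
          have : (a : ℝ) * Real.sqrt 2 = -(b * Real.sqrt 3) := by push_cast at e; linarith
          calc (a : ℝ) * (Real.sqrt 2 * Real.sqrt 3) = (a * Real.sqrt 2) * Real.sqrt 3 := by ring
            _ = -(b * Real.sqrt 3 ^ 2) := by rw [this]; ring
            _ = _ := by rw [h3]; ring
        by_cases ha : a = 0
        · subst ha
          push_cast at e2
          have : (b : ℝ) = 0 := by linarith
          exact hb (by exact_mod_cast this)
        · have e3 : Real.sqrt 6 = ((-3 * b / a : ℚ) : ℝ) := by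
            push_cast
            have : (a : ℝ) ≠ 0 := by exact_mod_cast ha
            field_simp
            linarith
          exact irr6 ⟨_, e3.symm⟩
  · exfalso
    have hne : (2 * (b : ℝ) * (2 * c)) ≠ 0 := by
      have : ((b * c : ℤ) : ℝ) ≠ 0 := by exact_mod_cast hbc
      push_cast at this
      intro h0
      apply this
      linarith
    have e2 : Real.sqrt 3 = (((4 * c ^ 2 + 3 * b ^ 2 - 2 * a ^ 2) / (2 * b * (2 * c)) : ℚ) : ℝ) := by
      push_cast
      rw [eq_div_iff hne]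
      linarith
    exact irr3 ⟨_, e2.symm⟩

/-- the disc -/
theorem disc_sum (c : ℂ) (hc : ‖c‖ < 2) :
    ∃ x y : ℝ, c = Complex.exp (Complex.I * (x : ℂ)) + Complex.exp (Complex.I * (y : ℂ)) := by
  refine ⟨c.arg + Real.arccos (‖c‖ / 2), c.arg - Real.arccos (‖c‖ / 2), ?_⟩
  have h1 : Real.cos (Real.arccos (‖c‖ / 2)) = ‖c‖ / 2 :=
    Real.cos_arccos (by linarith [norm_nonneg c]) (by linarith)
  have h2 : c = ‖c‖ * Complex.exp (c.arg * Complex.I) := (Complex.norm_mul_exp_arg_mul_I c).symm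
  have h3 : Complex.cos ((Real.arccos (‖c‖ / 2) : ℝ) : ℂ) = ((‖c‖ / 2 : ℝ) : ℂ) := by
    rw [← Complex.ofReal_cos, h1]
  set t : ℝ := Real.arccos (‖c‖ / 2) with ht
  have h4 : Complex.exp (Complex.I * ((c.arg + t : ℝ) : ℂ)) + Complex.exp (Complex.I * ((c.arg - t : ℝ) : ℂ)) =
      Complex.exp (c.arg * Complex.I) * (2 * Complex.cos (t : ℂ)) := by
    rw [Complex.two_cos, mul_add, ← Complex.exp_add, ← Complex.exp_add]
    congr 2
    · push_cast; ring
    · push_cast; ring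
  rw [h4, h3]
  conv_lhs => rw [h2]
  push_cast
  ring

end Pool.Agent.EHD
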