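import Mathlib

/-!
# Kronecker's theorem in dimension two
-/

open Filter Topology Finset

namespace Pool.Agent.EHD

/-- a phase -/
noncomputable def ph (t : ℝ) : ℂ := Complex.exp (Complex.I * (t : ℂ))

theorem ph_add (s t : ℝ) : ph (s + t) = ph s * ph t := by
  unfold ph
  rw [← Complex.exp_add]
  congr 1
  push_cast
  ring

theorem ph_norm (t : ℝ) : ‖ph t‖ = 1 := by
  unfold ph
  rw [mul_comm]
  exact Complex.norm_exp_ofReal_mul_I t

theorem ph_zero : ph 0 = 1 := by
  unfold ph
  simp

theorem ph_pow (t : ℝ) (n : ℕ) : ph (n * t) = ph t ^ n := by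
  unfold ph
  rw [← Complex.exp_nat_mul]
  congr 1
  push_cast
  ring

/-- the kernel in one variable -/
theorem ker_expand (t : ℝ) (L : ℕ) : (ph t + 1) ^ (2 * L) * ph (-(L * t)) =
    ∑ m ∈ range (2 * L + 1), ((2 * L).choose m : ℂ) * ph (((m : ℝ) - L) * t) := by
  rw [add_pow, Finset.sum_mul]
  refine Finset.sum_congr rfl fun m _ => ?_
  rw [one_pow, mul_one, ← ph_pow]
  have : ((m : ℝ) - L) * t = m * t + -(L * t) := by ring
  rw [this, ph_add]
  ring

theorem ker_norm (t : ℝ) (L : ℕ) : ‖(ph t + 1) ^ (2 * L) * ph (-(L * t))‖ = (‖ph t + 1‖ ^ 2) ^ L := by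
  rw [norm_mul, ph_norm, mul_one, norm_pow, pow_mul]

theorem par (t : ℝ) : ‖ph t + 1‖ ^ 2 = 4 - ‖ph t - 1‖ ^ 2 := by
  have h := parallelogram_law_with_norm ℝ (ph t) 1
  rw [ph_norm, norm_one] at h
  linarith

theorem ker_le (t : ℝ) : ‖ph t + 1‖ ^ 2 ≤ 4 := by
  rw [par]
  have := sq_nonneg ‖ph t - 1‖
  linarith

/-- Cesàro means of a nontrivial geometric sequence tend to zero -/
theorem mean_geom (w k : ℂ) (hw : w ≠ 1) (hw1 : ‖w‖ = 1) :
    Tendsto (fun M : ℕ => (M : ℂ)⁻¹ * ∑ n ∈ range M, k * w ^ n) atTop (𝓝 0) := by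
  have hw' : w - 1 ≠ 0 := sub_ne_zero.mpr hw
  have h1 : Tendsto (fun M : ℕ => ((M : ℝ))⁻¹ * (‖k‖ * (2 / ‖w - 1‖))) atTop (𝓝 0) := by
    have := tendsto_inv_atTop_nhds_zero_nat (𝕜 := ℝ)
    simpa using this.mul_const (‖k‖ * (2 / ‖w - 1‖))
  refine squeeze_zero_norm (fun M => ?_) h1
  rw [norm_mul, norm_inv, Complex.norm_natCast]
  refine mul_le_mul_of_nonneg_left ?_ (by positivity)
  rw [← Finset.mul_sum, norm_mul]
  refine mul_le_mul_of_nonneg_left ?_ (norm_nonneg _)
  rw [geom_sum_eq hw, norm_div]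
  refine div_le_div_of_nonneg_right ?_ (norm_nonneg _)
  refine (norm_sub_le _ _).trans ?_
  rw [norm_pow, hw1, one_pow, norm_one]
  norm_num

/-- Kronecker's theorem in dimension two. -/
theorem kron2 (α β : ℝ) (hind : ∀ a b c : ℤ, (a : ℝ) * α + b * β = c → a = 0 ∧ b = 0) (x y ε : ℝ)
    (hε : 0 < ε) (N : ℕ) :
    ∃ n : ℕ, N ≤ n ∧ ‖Complex.exp (Complex.I * ((2 * Real.pi * α * n : ℝ) : ℂ)) - Complex.exp (Complex.I * (x : ℂ))‖ < ε ∧
      ‖Complex.exp (Complex.I * ((2 * Real.pi * β * n : ℝ) : ℂ)) - Complex.exp (Complex.I * (y : ℂ))‖ < ε := by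
  by_contra hcon
  push Not at hcon
  set e : ℝ := min ε 1 with he
  have he0 : 0 < e := lt_min hε one_pos
  have he1 : e ≤ 1 := min_le_right _ _
  have hee : e ≤ ε := min_le_left _ _
  set ρ : ℝ := 1 - e ^ 2 / 4 with hρ
  have hρ0 : 0 ≤ ρ := by nlinarith
  have hρ1 : ρ < 1 := by nlinarith [pow_pos he0 2]
  set s : ℕ → ℝ := fun n => 2 * Real.pi * α * n - x with hs
  set t : ℕ → ℝ := fun n => 2 * Real.pi * β * n - y with ht
  -- distance to one
  have hdist : ∀ a b : ℝ, ‖ph (a - b) - 1‖ = ‖ph a - ph b‖ := by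
    intro a b
    have h1 : ph a = ph (a - b) * ph b := by rw [← ph_add]; congr 1; ring
    have h2 : ph a - ph b = (ph (a - b) - 1) * ph b := by rw [sub_mul, one_mul, ← h1]
    rw [h2, norm_mul, ph_norm, mul_one]
  have hfar : ∀ n, N ≤ n → ‖ph (s n) + 1‖ ^ 2 ≤ 4 * ρ ∨ ‖ph (t n) + 1‖ ^ 2 ≤ 4 * ρ := by
    intro n hn
    by_cases h1 : ‖ph (s n) - 1‖ < e
    · right
      have h2 : ‖ph (2 * Real.pi * α * n) - ph x‖ < ε := by
        rw [← hdist]
        exact lt_of_lt_of_le h1 hee
      have h3 := hcon n hn h2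
      have h4 : e ≤ ‖ph (t n) - 1‖ := by
        have : ‖ph (t n) - 1‖ = ‖ph (2 * Real.pi * β * n) - ph y‖ := hdist _ _
        rw [this]
        exact hee.trans h3
      rw [par]
      have := pow_le_pow_left₀ he0.le h4 2
      rw [hρ]
      linarith
    · left
      push Not at h1
      rw [par]
      have := pow_le_pow_left₀ he0.le h1 2
      rw [hρ]
      linarith
  -- the mean values for the kernel of order L
  have hmain : ∀ L : ℕ, ((L.centralBinom : ℝ)) ^ 2 ≤ 16 ^ L * ρ ^ L := by
    intro L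
    set G : ℕ → ℂ := fun n => ((ph (s n) + 1) ^ (2 * L) * ph (-(L * s n))) *
      ((ph (t n) + 1) ^ (2 * L) * ph (-(L * t n))) with hG
    have hlim : Tendsto (fun M : ℕ => (M : ℂ)⁻¹ * ∑ n ∈ range M, G n) atTop
        (𝓝 ((L.centralBinom : ℂ) ^ 2)) := by
      have hterm : ∀ j ∈ range (2 * L + 1), ∀ k ∈ range (2 * L + 1),
          Tendsto (fun M : ℕ => (M : ℂ)⁻¹ * ∑ n ∈ range M,
            (((2 * L).choose j : ℂ) * ph (((j : ℝ) - L) * s n)) *
              (((2 * L).choose k : ℂ) * ph (((k : ℝ) - L) * t n))) atTop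
            (𝓝 (if j = L ∧ k = L then (L.centralBinom : ℂ) ^ 2 else 0)) := by
        intro j _ k _
        by_cases hjk : j = L ∧ k = L
        · rw [if_pos hjk]
          rw [hjk.1, hjk.2]
          have h1 : ∀ n, (((2 * L).choose L : ℂ) * ph (((L : ℝ) - L) * s n)) *
              (((2 * L).choose L : ℂ) * ph (((L : ℝ) - L) * t n)) = (L.centralBinom : ℂ) ^ 2 := by
            intro n
            rw [sub_self, zero_mul, zero_mul, ph_zero, Nat.centralBinom]
            ring
          simp only [h1, Finset.sum_const, Finset.card_range, nsmul_eq_mul]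
          refine tendsto_const_nhds.congr' ?_
          filter_upwards [eventually_gt_atTop 0] with M hM
          have : (M : ℂ) ≠ 0 := by exact_mod_cast hM.ne'
          rw [inv_mul_cancel_left₀ this]
        · rw [if_neg hjk]
          have h1 : ∀ n : ℕ, (((2 * L).choose j : ℂ) * ph (((j : ℝ) - L) * s n)) *
              (((2 * L).choose k : ℂ) * ph (((k : ℝ) - L) * t n)) =
              (((2 * L).choose j : ℂ) * ((2 * L).choose k : ℂ) *
                ph (-(((j : ℝ) - L) * x) - ((k : ℝ) - L) * y)) *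
                ph (2 * Real.pi * (((j : ℝ) - L) * α + ((k : ℝ) - L) * β)) ^ n := by
            intro n
            rw [← ph_pow]
            have h2 : ph (((j : ℝ) - L) * s n) * ph (((k : ℝ) - L) * t n) =
                ph (-(((j : ℝ) - L) * x) - ((k : ℝ) - L) * y) *
                  ph (n * (2 * Real.pi * (((j : ℝ) - L) * α + ((k : ℝ) - L) * β))) := by
              rw [← ph_add, ← ph_add]
              congr 1
              simp only [hs, ht]
              ring
            linear_combination (((2 * L).choose j : ℂ) * ((2 * L).choose k : ℂ)) * h2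
          simp only [h1]
          refine mean_geom _ _ ?_ (ph_norm _)
          intro hone
          unfold ph at hone
          rw [Complex.exp_eq_one_iff] at hone
          obtain ⟨c, hc⟩ := hone
          have h3 : (((j : ℝ) - L) * α + ((k : ℝ) - L) * β : ℝ) = c := by
            have h4 : (2 * Real.pi * Complex.I : ℂ) ≠ 0 := Complex.two_pi_I_ne_zero
            have h5 : (2 * Real.pi * Complex.I : ℂ) * (((((j : ℝ) - L) * α + ((k : ℝ) - L) * β : ℝ)) : ℂ) =
                (2 * Real.pi * Complex.I : ℂ) * (c : ℂ) := by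
              rw [mul_comm _ (c : ℂ), ← hc]
              push_cast
              ring
            have h6 := mul_left_cancel₀ h4 h5
            exact_mod_cast h6
          have h7 := hind ((j : ℤ) - L) ((k : ℤ) - L) c (by push_cast; exact h3)
          exact hjk ⟨by omega, by omega⟩
      have hsum := tendsto_finsetSum (range (2 * L + 1)) (fun j hj =>
        tendsto_finsetSum (range (2 * L + 1)) (fun k hk => hterm j hj k hk))
      have hval : (∑ j ∈ range (2 * L + 1), ∑ k ∈ range (2 * L + 1),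
          (if j = L ∧ k = L then (L.centralBinom : ℂ) ^ 2 else 0)) = (L.centralBinom : ℂ) ^ 2 := by
        rw [Finset.sum_eq_single L, Finset.sum_eq_single L]
        · simp
        · intro k _ hk
          rw [if_neg (fun h => hk h.2)]
        · intro h
          exact absurd (Finset.mem_range.mpr (by omega)) h
        · intro j _ hj
          refine Finset.sum_eq_zero fun k _ => ?_
          rw [if_neg (fun h => hj h.1)]
        · intro h
          exact absurd (Finset.mem_range.mpr (by omega)) h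
      rw [hval] at hsum
      refine hsum.congr ?_
      intro M
      simp only [hG, ker_expand, Finset.sum_mul_sum]
      rw [Finset.sum_comm' (s := range M) (t := fun _ => range (2 * L + 1)) (t' := range (2 * L + 1))
        (s' := fun _ => range M) (by intro a b; simp)]
      rw [Finset.mul_sum]
      refine Finset.sum_congr rfl fun j _ => ?_
      rw [Finset.sum_comm, Finset.mul_sum]
    -- the bound
    have hGle : ∀ n, ‖G n‖ ≤ 16 ^ L := by
      intro n
      rw [hG]
      simp only
      rw [norm_mul, ker_norm, ker_norm]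
      have h1 := pow_le_pow_left₀ (sq_nonneg _) (ker_le (s n)) L
      have h2 := pow_le_pow_left₀ (sq_nonneg _) (ker_le (t n)) L
      calc _ ≤ (4 : ℝ) ^ L * 4 ^ L := mul_le_mul h1 h2 (by positivity) (by positivity)
        _ = 16 ^ L := by rw [← mul_pow]; norm_num
    have hGle2 : ∀ n, N ≤ n → ‖G n‖ ≤ 16 ^ L * ρ ^ L := by
      intro n hn
      rw [hG]
      simp only
      rw [norm_mul, ker_norm, ker_norm]
      have h1 := pow_le_pow_left₀ (sq_nonneg _) (ker_le (s n)) L
      have h2 := pow_le_pow_left₀ (sq_nonneg _) (ker_le (t n)) L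
      have h16 : (16 : ℝ) ^ L = 4 ^ L * 4 ^ L := by rw [← mul_pow]; norm_num
      rcases hfar n hn with h3 | h3
      · have h4 := pow_le_pow_left₀ (sq_nonneg _) h3 L
        calc _ ≤ (4 * ρ) ^ L * 4 ^ L := mul_le_mul h4 h2 (by positivity) (by positivity)
          _ = 16 ^ L * ρ ^ L := by rw [h16, mul_pow]; ring
      · have h4 := pow_le_pow_left₀ (sq_nonneg _) h3 L
        calc _ ≤ 4 ^ L * (4 * ρ) ^ L := mul_le_mul h1 h4 (by positivity) (by positivity)
          _ = 16 ^ L * ρ ^ L := by rw [h16, mul_pow]; ring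
    have hb : ∀ M : ℕ, 0 < M → ‖(M : ℂ)⁻¹ * ∑ n ∈ range M, G n‖ ≤
        (M : ℝ)⁻¹ * (N * 16 ^ L) + 16 ^ L * ρ ^ L := by
      intro M hM
      have hM' : (0 : ℝ) < M := by exact_mod_cast hM
      rw [norm_mul, norm_inv, Complex.norm_natCast]
      have h1 : ‖∑ n ∈ range M, G n‖ ≤ N * 16 ^ L + M * (16 ^ L * ρ ^ L) := by
        refine (norm_sum_le _ _).trans ?_
        calc ∑ n ∈ range M, ‖G n‖ ≤ ∑ n ∈ range M, ((if n < N then (16 : ℝ) ^ L else 0) + 16 ^ L * ρ ^ L) := by
              refine Finset.sum_le_sum fun n _ => ?_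
              by_cases hn : n < N
              · rw [if_pos hn]
                have : (0 : ℝ) ≤ 16 ^ L * ρ ^ L := by positivity
                linarith [hGle n]
              · rw [if_neg hn, zero_add]
                exact hGle2 n (by omega)
          _ = ∑ n ∈ range M, (if n < N then (16 : ℝ) ^ L else 0) + M * (16 ^ L * ρ ^ L) := by
              rw [Finset.sum_add_distrib, Finset.sum_const, Finset.card_range, nsmul_eq_mul]
          _ ≤ N * 16 ^ L + M * (16 ^ L * ρ ^ L) := by
              refine add_le_add ?_ le_rfl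
              rw [← Finset.sum_filter, Finset.sum_const, nsmul_eq_mul]
              refine mul_le_mul_of_nonneg_right ?_ (by positivity)
              have : (Finset.filter (fun n => n < N) (range M)).card ≤ (range N).card := by
                apply Finset.card_le_card
                intro n hn
                rw [Finset.mem_filter] at hn
                exact Finset.mem_range.mpr hn.2
              rw [Finset.card_range] at this
              exact_mod_cast this
      calc (M : ℝ)⁻¹ * ‖∑ n ∈ range M, G n‖ ≤ (M : ℝ)⁻¹ * (N * 16 ^ L + M * (16 ^ L * ρ ^ L)) :=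
            mul_le_mul_of_nonneg_left h1 (by positivity)
        _ = _ := by
            rw [mul_add, inv_mul_cancel_left₀ hM'.ne']
    have hlim2 : Tendsto (fun M : ℕ => (M : ℝ)⁻¹ * (N * 16 ^ L) + 16 ^ L * ρ ^ L) atTop
        (𝓝 (16 ^ L * ρ ^ L)) := by
      have h1 := (tendsto_inv_atTop_nhds_zero_nat (𝕜 := ℝ)).mul_const ((N : ℝ) * 16 ^ L)
      rw [zero_mul] at h1
      simpa using h1.add_const (16 ^ L * ρ ^ L)
    have hfin := le_of_tendsto_of_tendsto hlim.norm hlim2 (by
      filter_upwards [eventually_gt_atTop 0] with M hM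
      exact hb M hM)
    rw [norm_pow, Complex.norm_natCast] at hfin
    exact hfin
  -- conclusion
  have hL : ∀ L : ℕ, 0 < L → 1 ≤ 4 * ((L : ℝ) ^ 2 * ρ ^ L) := by
    intro L hL
    have h1 : ((4 : ℝ) ^ L) ≤ 2 * L * L.centralBinom := by
      exact_mod_cast Nat.four_pow_le_two_mul_self_mul_centralBinom L hL
    have h2 : ((4 : ℝ) ^ L) ^ 2 ≤ (2 * L * L.centralBinom) ^ 2 := pow_le_pow_left₀ (by positivity) h1 2
    have h3 := hmain L
    have h4 : ((4 : ℝ) ^ L) ^ 2 = 16 ^ L := by rw [← pow_mul, mul_comm, pow_mul]; norm_num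
    have h5 : (2 * (L : ℝ) * L.centralBinom) ^ 2 = 4 * L ^ 2 * (L.centralBinom : ℝ) ^ 2 := by ring
    rw [h4, h5] at h2
    have h6 : 4 * (L : ℝ) ^ 2 * (L.centralBinom : ℝ) ^ 2 ≤ 4 * L ^ 2 * (16 ^ L * ρ ^ L) :=
      mul_le_mul_of_nonneg_left h3 (by positivity)
    have h7 : (16 : ℝ) ^ L * 1 ≤ 16 ^ L * (4 * ((L : ℝ) ^ 2 * ρ ^ L)) := by nlinarith
    exact le_of_mul_le_mul_left h7 (by positivity)
  have hlim3 : Tendsto (fun L : ℕ => 4 * ((L : ℝ) ^ 2 * ρ ^ L)) atTop (𝓝 0) := by
    have := tendsto_pow_const_mul_const_pow_of_abs_lt_one 2 (r := ρ) (by rw [abs_of_nonneg hρ0]; exact hρ1)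
    simpa using this.const_mul 4
  have h1 := ge_of_tendsto hlim3 (by
    filter_upwards [eventually_gt_atTop 0] with L hL'
    exact hL L hL')
  norm_num at h1

end Pool.Agent.EHD
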