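import Pool.Agent.EHD.NonInj
import Pool.Agent.EHD.Exam
import Pool.Agent.EHD.Kron

/-!
# Generic constants: close pairs of zeros
-/

open Filter Topology

namespace Pool.Agent.EHD

/-- the open condition on pairs -/
def Wq (q : ℕ) : Set (ℂ × ℂ) := {p | p.1 ≠ p.2 ∧ (q : ℝ) < ‖p.1‖ ∧ ‖p.1 - p.2‖ * (1 + ‖p.1‖) ^ q < 1}

theorem isOpen_Wq (q : ℕ) : IsOpen (Wq q) := by
  have h1 : IsOpen {p : ℂ × ℂ | p.1 ≠ p.2} := isOpen_ne_fun continuous_fst continuous_snd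
  have h2 : IsOpen {p : ℂ × ℂ | (q : ℝ) < ‖p.1‖} := isOpen_lt continuous_const continuous_fst.norm
  have h3 : IsOpen {p : ℂ × ℂ | ‖p.1 - p.2‖ * (1 + ‖p.1‖) ^ q < 1} := by
    refine isOpen_lt ?_ continuous_const
    fun_prop
  have : Wq q = {p : ℂ × ℂ | p.1 ≠ p.2} ∩ ({p : ℂ × ℂ | (q : ℝ) < ‖p.1‖} ∩
      {p : ℂ × ℂ | ‖p.1 - p.2‖ * (1 + ‖p.1‖) ^ q < 1}) := rfl
  rw [this]
  exact h1.inter (h2.inter h3)

/-- the constants with a close pair of level `q` -/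
def Oq (g : ℂ → ℂ) (q : ℕ) : Set ℂ := {c : ℂ | ∃ p ∈ Wq q, g p.1 = c ∧ g p.2 = c}

theorem fails (g : ℂ → ℂ) (c : ℂ) (hc : ∀ q, c ∈ Oq g q) (q : ℕ) (C : ℝ) (hC : 0 < C) :
    ∃ z₁ z₂ : ℂ, g z₁ = c ∧ g z₂ = c ∧ z₁ ≠ z₂ ∧ ‖z₁ - z₂‖ < C / (1 + ‖z₁‖) ^ q := by
  obtain ⟨m, hm⟩ := exists_nat_gt (1 / C)
  obtain ⟨⟨z₁, z₂⟩, ⟨hne, hlo, hcl⟩, h1, h2⟩ := hc (q + m + 1)
  simp only at hne hlo hcl h1 h2
  refine ⟨z₁, z₂, h1, h2, hne, ?_⟩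
  have hp : (1 : ℝ) ≤ 1 + ‖z₁‖ := by linarith [norm_nonneg z₁]
  have hbig : 1 < C * (1 + ‖z₁‖) ^ (m + 1) := by
    have e1 : (1 + ‖z₁‖) ^ 1 ≤ (1 + ‖z₁‖) ^ (m + 1) := pow_le_pow_right₀ hp (by omega)
    have e2 : (m : ℝ) ≤ 1 + ‖z₁‖ := by
      push_cast at hlo
      have : (0 : ℝ) ≤ q := Nat.cast_nonneg q
      linarith
    rw [div_lt_iff₀ hC] at hm
    have e3 : (m : ℝ) * C ≤ (1 + ‖z₁‖) ^ (m + 1) * C := by
      refine mul_le_mul_of_nonneg_right ?_ hC.le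
      rw [pow_one] at e1
      exact e2.trans e1
    linarith
  rw [lt_div_iff₀ (by positivity)]
  have e4 : (1 + ‖z₁‖) ^ (q + m + 1) = (1 + ‖z₁‖) ^ q * (1 + ‖z₁‖) ^ (m + 1) := by
    rw [← pow_add]; congr 1
  rw [e4] at hcl
  have hP : 0 < (1 + ‖z₁‖) ^ (m + 1) := by positivity
  by_contra hcon
  push Not at hcon
  have e5 : C * (1 + ‖z₁‖) ^ (m + 1) ≤ ‖z₁ - z₂‖ * (1 + ‖z₁‖) ^ q * (1 + ‖z₁‖) ^ (m + 1) :=
    mul_le_mul_of_nonneg_right hcon hP.le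
  have e6 : ‖z₁ - z₂‖ * ((1 + ‖z₁‖) ^ q * (1 + ‖z₁‖) ^ (m + 1)) =
      ‖z₁ - z₂‖ * (1 + ‖z₁‖) ^ q * (1 + ‖z₁‖) ^ (m + 1) := by ring
  linarith

/-- near a critical value there are members of `Oq` -/
theorem near_crit (g : ℂ → ℂ) (hg : Differentiable ℂ g) (hne : ∃ z w, g z ≠ g w) (q : ℕ) (ζ : ℂ)
    (hζ : (q : ℝ) + 1 < ‖ζ‖) (h : deriv g ζ = 0) (ε : ℝ) (hε : 0 < ε) :
    ∃ c ∈ Oq g q, ‖c - g ζ‖ < ε := by
  have hc : ∀ᶠ z in 𝓝 ζ, ‖g z - g ζ‖ < ε := by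
    have h1 := (hg.continuous.continuousAt (x := ζ)).eventually (Metric.ball_mem_nhds (g ζ) hε)
    filter_upwards [h1] with z hz
    have hz' : dist (g z) (g ζ) < ε := hz
    rwa [dist_eq_norm] at hz'
  obtain ⟨δ, hδ, hball⟩ := Metric.eventually_nhds_iff.mp hc
  obtain ⟨η, hη, hη1, hηδ, hη2⟩ : ∃ η : ℝ, 0 < η ∧ η ≤ 1 ∧ η ≤ δ ∧ 2 * η * (2 + ‖ζ‖) ^ q ≤ 1 := by
    refine ⟨min (min 1 δ) (1 / (2 * (2 + ‖ζ‖) ^ q)), ?_, ?_, ?_, ?_⟩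
    · refine lt_min (lt_min one_pos hδ) (by positivity)
    · exact (min_le_left _ _).trans (min_le_left _ _)
    · exact (min_le_left _ _).trans (min_le_right _ _)
    · have h1 : min (min 1 δ) (1 / (2 * (2 + ‖ζ‖) ^ q)) ≤ 1 / (2 * (2 + ‖ζ‖) ^ q) := min_le_right _ _
      have hP : 0 < (2 + ‖ζ‖) ^ q := by positivity
      calc 2 * min (min 1 δ) (1 / (2 * (2 + ‖ζ‖) ^ q)) * (2 + ‖ζ‖) ^ q
          ≤ 2 * (1 / (2 * (2 + ‖ζ‖) ^ q)) * (2 + ‖ζ‖) ^ q :=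
            mul_le_mul_of_nonneg_right (mul_le_mul_of_nonneg_left h1 (by norm_num)) hP.le
        _ = 1 := by field_simp
  obtain ⟨z₁, z₂, hne12, h1, h2, heq⟩ := not_inj g hg hne ζ h η hη
  have hz1 : ‖z₁‖ ≤ ‖ζ‖ + 1 := by
    calc ‖z₁‖ = ‖ζ + (z₁ - ζ)‖ := by ring_nf
      _ ≤ ‖ζ‖ + ‖z₁ - ζ‖ := norm_add_le _ _
      _ ≤ _ := by linarith
  have hz1' : ‖ζ‖ ≤ ‖z₁‖ + ‖z₁ - ζ‖ := by
    calc ‖ζ‖ = ‖z₁ - (z₁ - ζ)‖ := by ring_nf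
      _ ≤ _ := norm_sub_le _ _
  refine ⟨g z₁, ⟨(z₁, z₂), ⟨hne12, ?_, ?_⟩, rfl, heq.symm⟩, ?_⟩
  · simp only
    linarith
  · simp only
    have hd : ‖z₁ - z₂‖ < 2 * η := by
      calc ‖z₁ - z₂‖ = ‖(z₁ - ζ) - (z₂ - ζ)‖ := by ring_nf
        _ ≤ ‖z₁ - ζ‖ + ‖z₂ - ζ‖ := norm_sub_le _ _
        _ < 2 * η := by linarith
    have hP : 0 < (1 + ‖z₁‖) ^ q := by positivity
    have hQ : (1 + ‖z₁‖) ^ q ≤ (2 + ‖ζ‖) ^ q := pow_le_pow_left₀ (by positivity) (by linarith) _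
    calc ‖z₁ - z₂‖ * (1 + ‖z₁‖) ^ q < 2 * η * (1 + ‖z₁‖) ^ q := mul_lt_mul_of_pos_right hd hP
      _ ≤ 2 * η * (2 + ‖ζ‖) ^ q := mul_le_mul_of_nonneg_left hQ (by positivity)
      _ ≤ 1 := hη2
  · refine hball ?_
    rw [dist_eq_norm]
    linarith

/-- **Baire**: if the values at large critical points are dense in a disc, the inequality fails for `g - c`,
`c` generic in this disc -/
theorem meagre_of_dense (g : ℂ → ℂ) (hg : Differentiable ℂ g) (hne : ∃ z w, g z ≠ g w) (R : ℝ)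
    (hd : ∀ c : ℂ, ‖c‖ < R → ∀ ε > 0, ∀ N : ℝ, ∃ ζ : ℂ, N < ‖ζ‖ ∧ deriv g ζ = 0 ∧ ‖g ζ - c‖ < ε) :
    IsMeagre {c : ℂ | ‖c‖ < R ∧ ∃ (q : ℕ) (C : ℝ), 0 < C ∧ ∀ z₁ z₂ : ℂ, g z₁ = c → g z₂ = c → z₁ ≠ z₂ →
      C / (1 + ‖z₁‖) ^ q ≤ ‖z₁ - z₂‖} := by
  have hopen : ∀ q, IsOpen (Oq g q ∪ (closure (Metric.ball (0 : ℂ) R))ᶜ) := fun q =>
    (isOpen_pairs g hg hne (Wq q) (isOpen_Wq q)).union isClosed_closure.isOpen_compl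
  have hdense : ∀ q, Dense (Oq g q ∪ (closure (Metric.ball (0 : ℂ) R))ᶜ) := by
    intro q
    have hball : Metric.ball (0 : ℂ) R ⊆ closure (Oq g q) := by
      intro c hc
      rw [Metric.mem_closure_iff]
      intro ε hε
      rw [Metric.mem_ball, dist_zero_right] at hc
      obtain ⟨ζ, h1, h2, h3⟩ := hd c hc (ε / 2) (by positivity) ((q : ℝ) + 1)
      obtain ⟨c', h4, h5⟩ := near_crit g hg hne q ζ h1 h2 (ε / 2) (by positivity)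
      refine ⟨c', h4, ?_⟩
      rw [dist_eq_norm]
      calc ‖c - c'‖ = ‖(g ζ - c) + (c' - g ζ)‖ := by rw [← norm_neg]; ring_nf
        _ ≤ ‖g ζ - c‖ + ‖c' - g ζ‖ := norm_add_le _ _
        _ < ε := by linarith
    intro c
    by_cases hc : c ∈ closure (Metric.ball (0 : ℂ) R)
    · exact closure_mono Set.subset_union_left (closure_minimal hball isClosed_closure hc)
    · exact subset_closure (Or.inr hc)
  have hres : (⋂ q, (Oq g q ∪ (closure (Metric.ball (0 : ℂ) R))ᶜ)) ∈ residual ℂ :=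
    countable_iInter_mem.mpr fun q => residual_of_dense_open (hopen q) (hdense q)
  refine mem_of_superset hres ?_
  intro c hc
  rintro ⟨hcR, q, C, hC, hsep⟩
  have hall : ∀ q, c ∈ Oq g q := by
    intro q
    rcases Set.mem_iInter.mp hc q with h | h
    · exact h
    · exact absurd (subset_closure (by rwa [Metric.mem_ball, dist_zero_right])) h
  obtain ⟨z₁, z₂, h1, h2, h3, h4⟩ := fails g c hall q C hC
  exact absurd (hsep z₁ z₂ h1 h2 h3) (not_le.mpr h4)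

theorem gex_dense (c : ℂ) (hc : ‖c‖ < 2) (ε : ℝ) (hε : 0 < ε) (N : ℝ) :
    ∃ ζ : ℂ, N < ‖ζ‖ ∧ deriv gex ζ = 0 ∧ ‖gex ζ - c‖ < ε := by
  obtain ⟨x, y, rfl⟩ := disc_sum c hc
  obtain ⟨M, hM⟩ := exists_nat_gt N
  obtain ⟨n, hn, h1, h2⟩ := kron2 _ _ sqrt_ind x y (ε / 2) (by positivity) M
  refine ⟨((Real.pi * n : ℝ) : ℂ), ?_, gex_deriv n, ?_⟩
  · rw [Complex.norm_real, Real.norm_eq_abs, abs_of_nonneg (by positivity)]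
    have e1 : (M : ℝ) ≤ n := by exact_mod_cast hn
    have e2 : (n : ℝ) ≤ Real.pi * n := by
      have := Real.pi_gt_three
      nlinarith [(Nat.cast_nonneg n : (0 : ℝ) ≤ n)]
    linarith
  · rw [gex_val]
    rw [add_sub_add_comm]
    exact (norm_add_le _ _).trans_lt (by linarith)

theorem gex_ne : ∃ z w, gex z ≠ gex w := by
  by_contra hcon
  push Not at hcon
  obtain ⟨ζ, -, -, h1⟩ := gex_dense 0 (by simp) (1 / 2) (by norm_num) 0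
  obtain ⟨ζ', -, -, h2⟩ := gex_dense 1 (by simp) (1 / 2) (by norm_num) 0
  rw [hcon ζ ζ'] at h1
  have : ‖(0 : ℂ) - 1‖ < 1 := by
    calc ‖(0 : ℂ) - 1‖ = ‖(gex ζ' - 1) - (gex ζ' - 0)‖ := by ring_nf
      _ ≤ ‖gex ζ' - 1‖ + ‖gex ζ' - 0‖ := norm_sub_le _ _
      _ < 1 := by linarith
  simp at this

theorem gex_meagre : IsMeagre {c : ℂ | ‖c‖ < 2 ∧ ∃ (q : ℕ) (C : ℝ), 0 < C ∧
    ∀ z₁ z₂ : ℂ, gex z₁ = c → gex z₂ = c → z₁ ≠ z₂ → C / (1 + ‖z₁‖) ^ q ≤ ‖z₁ - z₂‖} :=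
  meagre_of_dense gex gex_diff gex_ne 2 fun c hc ε hε N => gex_dense c hc ε hε N

end Pool.Agent.EHD
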