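import Mathlib
import Pool.Agent.EHD.Gen

/-!
MP_4f9849_an (Ehrenpreis: separation of zeros of exponential polynomials).
The hypothesis that the coefficients are algebraic cannot be dropped, not even for one coefficient:
an exponential sum `g` with algebraic coefficients and algebraic real frequencies such that the
inequality of Q1 fails for `g - c` for all `c` in the disc `|c| < 2` outside a meagre set.
-/

namespace Pool.Agent.EHD.GenericConstant

open Pool.Agent.EHD

theorem result (g : ℂ → ℂ)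
    (hg : ∀ z, g z = Complex.exp (Complex.I * (Real.sqrt 2 : ℝ) * z) +
        Complex.exp (Complex.I * (Real.sqrt 3 : ℝ) * z)
      - (Real.sqrt 2 : ℝ) / 4 * (Complex.exp (Complex.I * ((Real.sqrt 2 + 2 : ℝ) : ℂ) * z)
          - Complex.exp (Complex.I * ((Real.sqrt 2 - 2 : ℝ) : ℂ) * z))
      - (Real.sqrt 3 : ℝ) / 4 * (Complex.exp (Complex.I * ((Real.sqrt 3 + 2 : ℝ) : ℂ) * z)
          - Complex.exp (Complex.I * ((Real.sqrt 3 - 2 : ℝ) : ℂ) * z))) :
    IsMeagre {c : ℂ | ‖c‖ < 2 ∧ ∃ (q : ℕ) (C : ℝ), 0 < C ∧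
      ∀ z₁ z₂ : ℂ, g z₁ - c = 0 → g z₂ - c = 0 → z₁ ≠ z₂ → C / (1 + ‖z₁‖) ^ q ≤ ‖z₁ - z₂‖} := by
  have e : g = gex := funext hg
  subst e
  have h := gex_meagre
  simp only [sub_eq_zero]
  exact h

end Pool.Agent.EHD.GenericConstant
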