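import Pool.Agent.EHD.Defs

/-!
# Hausdorff measure of a limsup set from coverings (row H)
-/

open Filter MeasureTheory Topology Pool.Agent.EHD

namespace Pool.Agent.EHD

open scoped ENNReal

/-- the diameter of a set whose points are pairwise at distance at most `r` -/
theorem ediam_le_of_norm {U : Set ℂ} {r : ℝ} (h : ∀ c ∈ U, ∀ c' ∈ U, ‖c - c'‖ ≤ r) :
    Metric.ediam U ≤ ENNReal.ofReal r := by
  refine Metric.ediam_le ?_
  intro x hx y hy
  rw [edist_dist, dist_eq_norm]
  exact ENNReal.ofReal_le_ofReal (h x hx y hy)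

/-- Hausdorff measure of a limsup set (row H) -/
theorem haus_zero (s : ℝ) (hs : 0 < s) (E : Set ℂ) (X : ℕ → Set ℂ) (hX : ∀ c ∈ E, ∃ᶠ n in atTop, c ∈ X n)
    (A D K : ℝ) (hAD : A < D * s) (n₀ : ℕ)
    (cov : ∀ n, n₀ ≤ n → ∃ (N : ℕ) (U : Fin N → Set ℂ), X n ⊆ ⋃ i, U i ∧ (N : ℝ) ≤ K * 2 ^ (A * n) ∧
      ∀ i, ∀ c ∈ U i, ∀ c' ∈ U i, ‖c - c'‖ ≤ K * 2 ^ (-(D * n))) :
    Measure.hausdorffMeasure s E = 0 := by
  have hK : 0 ≤ K := by
    obtain ⟨N, U, -, hN, -⟩ := cov n₀ le_rfl
    have h1 : (0 : ℝ) ≤ K * 2 ^ (A * n₀) := le_trans (Nat.cast_nonneg N) hN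
    have h2 : (0 : ℝ) < (2 : ℝ) ^ (A * n₀) := Real.rpow_pos_of_pos (by norm_num) _
    by_contra hneg
    have : K * (2 : ℝ) ^ (A * n₀) < 0 := mul_neg_of_neg_of_pos (not_le.mp hneg) h2
    linarith
  rcases le_or_gt D 0 with hD | hD
  · -- then A is negative and the coverings are empty
    have hA : A < 0 := by
      have : D * s ≤ 0 := mul_nonpos_of_nonpos_of_nonneg hD hs.le
      linarith
    have hE : E = ∅ := by
      rw [Set.eq_empty_iff_forall_notMem]
      intro c hc
      have ht : Tendsto (fun n : ℕ => K * (2 : ℝ) ^ (A * n)) atTop (𝓝 0) := by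
        have h0 : Tendsto (fun n : ℕ => ((2 : ℝ) ^ A) ^ n) atTop (𝓝 0) := by
          apply tendsto_pow_atTop_nhds_zero_of_lt_one
          · exact (Real.rpow_pos_of_pos (by norm_num) _).le
          · exact Real.rpow_lt_one_of_one_lt_of_neg (by norm_num) hA
        have h1 := h0.const_mul K
        rw [mul_zero] at h1
        refine h1.congr ?_
        intro n
        rw [Real.rpow_mul (by norm_num), Real.rpow_natCast]
      have hev : ∀ᶠ n in atTop, K * (2 : ℝ) ^ (A * (n : ℕ)) < 1 := ht.eventually_lt_const (by norm_num)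
      obtain ⟨n, hcn, hn1, hn2⟩ := ((hX c hc).and_eventually (hev.and (eventually_ge_atTop n₀))).exists
      obtain ⟨N, U, hU, hN, -⟩ := cov n hn2
      have hN0 : N = 0 := by
        have : (N : ℝ) < 1 := lt_of_le_of_lt hN hn1
        exact_mod_cast Nat.lt_one_iff.mp (by exact_mod_cast this)
      subst hN0
      obtain ⟨i, -⟩ := Set.mem_iUnion.mp (hU hcn)
      exact i.elim0
    rw [hE]
    exact measure_empty
  · -- main case
    have cov' : ∀ n : ℕ, ∃ (N : ℕ) (U : Fin N → Set ℂ), n₀ ≤ n → (X n ⊆ ⋃ i, U i ∧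
        (N : ℝ) ≤ K * 2 ^ (A * n) ∧
        ∀ i, ∀ c ∈ U i, ∀ c' ∈ U i, ‖c - c'‖ ≤ K * 2 ^ (-(D * n))) := by
      intro n
      by_cases hn : n₀ ≤ n
      · obtain ⟨N, U, h⟩ := cov n hn
        exact ⟨N, U, fun _ => h⟩
      · exact ⟨0, fun _ => ∅, fun h => absurd h hn⟩
    choose N U hNU using cov'
    set f : ℕ → ℝ := fun n => K * (2 : ℝ) ^ (A * n) * (K * (2 : ℝ) ^ (-(D * n))) ^ s with hf
    have hf0 : ∀ n, 0 ≤ f n := by
      intro n
      have h1 : (0 : ℝ) < (2 : ℝ) ^ (A * n) := Real.rpow_pos_of_pos (by norm_num) _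
      have h2 : (0 : ℝ) < (2 : ℝ) ^ (-(D * n)) := Real.rpow_pos_of_pos (by norm_num) _
      simp only [hf]
      positivity
    have hfg : ∀ n : ℕ, f n = K * K ^ s * ((2 : ℝ) ^ (A - D * s)) ^ n := by
      intro n
      have h2 : (0 : ℝ) < (2 : ℝ) ^ (-(D * n)) := Real.rpow_pos_of_pos (by norm_num) _
      simp only [hf]
      rw [Real.mul_rpow hK h2.le, ← Real.rpow_mul (by norm_num : (0:ℝ) ≤ 2), ← Real.rpow_natCast,
        ← Real.rpow_mul (by norm_num : (0:ℝ) ≤ 2)]
      have h3 : (2 : ℝ) ^ (A * n) * (2 : ℝ) ^ (-(D * n) * s) = (2 : ℝ) ^ ((A - D * s) * n) := by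
        rw [← Real.rpow_add (by norm_num)]
        congr 1
        ring
      rw [← h3]
      ring
    have hsum : Summable f := by
      have hr1 : (2 : ℝ) ^ (A - D * s) < 1 :=
        Real.rpow_lt_one_of_one_lt_of_neg (by norm_num) (by linarith)
      have hr0 : (0 : ℝ) ≤ (2 : ℝ) ^ (A - D * s) := (Real.rpow_pos_of_pos (by norm_num) _).le
      have := (summable_geometric_of_lt_one hr0 hr1).mul_left (K * K ^ s)
      exact this.congr (fun n => (hfg n).symm)
    set g : ℕ → ℝ≥0∞ := fun n => ENNReal.ofReal (f n) with hg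
    have hgsum : ∑' n, g n ≠ ∞ := by
      have := hsum.tsum_ofReal_ne_top
      exact this
    have htail : Tendsto (fun M => ∑' k, g (k + M)) atTop (𝓝 0) := ENNReal.tendsto_sum_nat_add g hgsum
    have hr : Tendsto (fun M : ℕ => ENNReal.ofReal (K * (2 : ℝ) ^ (-(D * M)))) atTop (𝓝 0) := by
      have h0 : Tendsto (fun n : ℕ => ((2 : ℝ) ^ (-D)) ^ n) atTop (𝓝 0) := by
        apply tendsto_pow_atTop_nhds_zero_of_lt_one
        · exact (Real.rpow_pos_of_pos (by norm_num) _).le
        · exact Real.rpow_lt_one_of_one_lt_of_neg (by norm_num) (by linarith)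
      have h1 := h0.const_mul K
      rw [mul_zero] at h1
      have h2 := ENNReal.tendsto_ofReal h1
      rw [ENNReal.ofReal_zero] at h2
      refine h2.congr ?_
      intro n
      rw [← Real.rpow_natCast, ← Real.rpow_mul (by norm_num : (0:ℝ) ≤ 2)]
      congr 3
      ring
    have key := MeasureTheory.Measure.hausdorffMeasure_le_liminf_tsum
      (ι := fun M : ℕ => Σ k : ℕ, Fin (N (k + M))) s E (l := atTop)
      (fun M : ℕ => ENNReal.ofReal (K * (2 : ℝ) ^ (-(D * M)))) hr
      (fun M p => U (p.1 + M) p.2)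
      (by
        filter_upwards [eventually_ge_atTop n₀] with M hM
        rintro ⟨k, i⟩
        have h1 := (hNU (k + M) (by omega)).2.2 i
        refine (ediam_le_of_norm h1).trans (ENNReal.ofReal_le_ofReal ?_)
        apply mul_le_mul_of_nonneg_left _ hK
        apply Real.rpow_le_rpow_of_exponent_le (by norm_num)
        have : (M : ℝ) ≤ ((k + M : ℕ) : ℝ) := by exact_mod_cast (by omega : M ≤ k + M)
        have := mul_le_mul_of_nonneg_left this hD.le
        linarith)
      (by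
        filter_upwards [eventually_ge_atTop n₀] with M hM
        intro c hc
        obtain ⟨n, hcn, hn⟩ := ((hX c hc).and_eventually (eventually_ge_atTop M)).exists
        obtain ⟨k, rfl⟩ := Nat.exists_eq_add_of_le' hn
        obtain ⟨i, hi⟩ := Set.mem_iUnion.mp ((hNU (k + M) (by omega)).1 hcn)
        exact Set.mem_iUnion.mpr ⟨⟨k, i⟩, hi⟩)
    have hbound : ∀ᶠ M in atTop, (∑' p : Σ k : ℕ, Fin (N (k + M)),
        Metric.ediam (U (p.1 + M) p.2) ^ s) ≤ ∑' k, g (k + M) := by
      filter_upwards [eventually_ge_atTop n₀] with M hM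
      rw [ENNReal.tsum_sigma']
      apply ENNReal.tsum_le_tsum
      intro k
      obtain ⟨-, h2, h3⟩ := hNU (k + M) (by omega)
      have hB : (0 : ℝ) ≤ K * (2 : ℝ) ^ (-(D * ((k + M : ℕ) : ℝ))) :=
        mul_nonneg hK (Real.rpow_pos_of_pos (by norm_num) _).le
      calc (∑' i : Fin (N (k + M)), Metric.ediam (U (k + M) i) ^ s)
          ≤ ∑' i : Fin (N (k + M)), ENNReal.ofReal ((K * (2 : ℝ) ^ (-(D * ((k + M : ℕ) : ℝ)))) ^ s) := by
            apply ENNReal.tsum_le_tsum
            intro i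
            rw [← ENNReal.ofReal_rpow_of_nonneg hB hs.le]
            exact ENNReal.rpow_le_rpow (ediam_le_of_norm (h3 i)) hs.le
        _ = (N (k + M) : ℝ≥0∞) * ENNReal.ofReal ((K * (2 : ℝ) ^ (-(D * ((k + M : ℕ) : ℝ)))) ^ s) := by
            rw [tsum_fintype]
            simp
        _ ≤ g (k + M) := by
            simp only [hg, hf]
            rw [← ENNReal.ofReal_natCast, ← ENNReal.ofReal_mul (Nat.cast_nonneg _)]
            apply ENNReal.ofReal_le_ofReal
            exact mul_le_mul_of_nonneg_right h2 (Real.rpow_nonneg hB s)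
    have hlim : liminf (fun M : ℕ => ∑' p : Σ k : ℕ, Fin (N (k + M)),
        Metric.ediam (U (p.1 + M) p.2) ^ s) atTop ≤ 0 := by
      calc _ ≤ liminf (fun M : ℕ => ∑' k, g (k + M)) atTop := liminf_le_liminf hbound
        _ = 0 := htail.liminf_eq
    exact le_antisymm (key.trans hlim) bot_le

end Pool.Agent.EHD
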