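import Pool.Agent.EHD.Defs

/-!
# Derivatives, upper and lower bounds of exponential polynomials in a logarithmic region
-/

open Polynomial Pool.Agent.EHD

namespace Pool.Agent.EHD

theorem ev_sum (a : Dat) (s : Finset ℝ) (hs : a.support ⊆ s) (z : ℂ) :
    ev a z = ∑ ν ∈ s, (a ν).eval z * Complex.exp (Complex.I * ν * z) :=
  Finsupp.sum_of_support_subset _ hs _ (fun ν _ => by simp)

theorem tw_apply (ν₀ : ℝ) (a : Dat) (ν : ℝ) :
    tw ν₀ a ν = derivative (a ν) + C (Complex.I * (ν - ν₀)) * a ν := rfl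

theorem tw_supp (ν₀ : ℝ) (a : Dat) : (tw ν₀ a).support ⊆ a.support :=
  Finsupp.support_onFinset_subset

theorem ev_tw_sum (ν₀ : ℝ) (a : Dat) (z : ℂ) :
    ev (tw ν₀ a) z = ∑ ν ∈ a.support, ((derivative (a ν)).eval z + Complex.I * (ν - ν₀) * (a ν).eval z) *
      Complex.exp (Complex.I * ν * z) := by
  rw [ev_sum _ _ (tw_supp ν₀ a)]
  refine Finset.sum_congr rfl fun ν _ => ?_
  rw [tw_apply]
  simp

theorem hasDerivAt_ev (a : Dat) (z : ℂ) : HasDerivAt (ev a) (ev (tw 0 a) z) z := by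
  have h1 : ev a = fun z => ∑ ν ∈ a.support, (a ν).eval z * Complex.exp (Complex.I * ν * z) := by
    funext w; exact ev_sum a _ (Finset.Subset.refl _) w
  rw [h1, ev_tw_sum]
  refine HasDerivAt.fun_sum fun ν _ => ?_
  have h2 := (Polynomial.hasDerivAt (a ν) z)
  have h3 : HasDerivAt (fun z : ℂ => Complex.exp (Complex.I * ν * z))
      (Complex.exp (Complex.I * ν * z) * (Complex.I * ν)) z := by
    have h4 : HasDerivAt (fun z : ℂ => Complex.I * ν * z) (Complex.I * ν) z := by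
      simpa using (hasDerivAt_id z).const_mul (Complex.I * (ν : ℂ))
    exact h4.cexp
  have h5 := h2.mul h3
  have h6 : (eval z (derivative (a ν)) + Complex.I * (ν - (0 : ℝ)) * eval z (a ν)) *
      Complex.exp (Complex.I * ν * z) = eval z (derivative (a ν)) * Complex.exp (Complex.I * ν * z) +
      eval z (a ν) * (Complex.exp (Complex.I * ν * z) * (Complex.I * ν)) := by
    push_cast
    ring
  rw [h6]
  exact h5

theorem differentiable_ev (a : Dat) : Differentiable ℂ (ev a) :=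
  fun z => (hasDerivAt_ev a z).differentiableAt

theorem deriv_ev (a : Dat) : deriv (ev a) = ev (tw 0 a) := by
  funext z; exact (hasDerivAt_ev a z).deriv

theorem iter_ev (m : ℕ) (a : Dat) : iteratedDeriv m (ev a) = ev ((tw 0)^[m] a) := by
  induction m generalizing a with
  | zero => simp
  | succ m ih => rw [iteratedDeriv_succ', deriv_ev, ih, Function.iterate_succ_apply]

theorem ev_tw (ν₀ : ℝ) (a : Dat) (z : ℂ) :
    ev (tw ν₀ a) z = ev (tw 0 a) z - Complex.I * ν₀ * ev a z := by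
  rw [ev_tw_sum, ev_tw_sum, ev_sum a _ (Finset.Subset.refl _), Finset.mul_sum, ← Finset.sum_sub_distrib]
  refine Finset.sum_congr rfl fun ν _ => ?_
  push_cast
  ring

/-! ## Upper bounds -/

theorem norm_exp_eq (ν : ℝ) (z : ℂ) : ‖Complex.exp (Complex.I * ν * z)‖ = Real.exp (-(ν * z.im)) := by
  rw [Complex.norm_exp]
  congr 1
  simp

theorem reg_mul_le {C : ℝ} (ν : ℝ) {z : ℂ} (hz : Reg C z) :
    |ν * z.im| ≤ |ν| + |ν| * C * Real.log (2 + ‖z‖) := by
  rw [abs_mul]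
  have := mul_le_mul_of_nonneg_left hz (abs_nonneg ν)
  nlinarith

theorem exp_pow_le {C : ℝ} (ν : ℝ) (z : ℂ) :
    Real.exp (|ν| + |ν| * C * Real.log (2 + ‖z‖)) ≤ Real.exp |ν| * (2 + ‖z‖) ^ ⌈|ν| * C⌉₊ := by
  have h0 : (0 : ℝ) < 2 + ‖z‖ := by positivity
  have h1 : (1 : ℝ) ≤ 2 + ‖z‖ := by linarith [norm_nonneg z]
  rw [Real.exp_add]
  refine mul_le_mul_of_nonneg_left ?_ (Real.exp_pos _).le
  rw [← Real.rpow_natCast, Real.rpow_def_of_pos h0]
  refine Real.exp_le_exp.mpr ?_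
  rw [mul_comm (Real.log (2 + ‖z‖))]
  exact mul_le_mul_of_nonneg_right (Nat.le_ceil _) (Real.log_nonneg h1)

theorem exp_up {C : ℝ} (ν : ℝ) {z : ℂ} (hz : Reg C z) :
    ‖Complex.exp (Complex.I * ν * z)‖ ≤ Real.exp |ν| * (2 + ‖z‖) ^ ⌈|ν| * C⌉₊ := by
  rw [norm_exp_eq]
  refine le_trans (Real.exp_le_exp.mpr ?_) (exp_pow_le ν z)
  have := reg_mul_le ν hz
  have := (abs_le.mp this).1
  linarith

theorem exp_lo {C : ℝ} (ν : ℝ) {z : ℂ} (hz : Reg C z) :
    (Real.exp |ν| * (2 + ‖z‖) ^ ⌈|ν| * C⌉₊)⁻¹ ≤ ‖Complex.exp (Complex.I * ν * z)‖ := by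
  rw [norm_exp_eq, Real.exp_neg]
  refine inv_anti₀ (Real.exp_pos _) ?_
  refine le_trans (Real.exp_le_exp.mpr ?_) (exp_pow_le ν z)
  have := reg_mul_le ν hz
  exact le_trans (le_abs_self _) this

theorem poly_le (Q : Polynomial ℂ) : ∃ K : ℝ, 0 < K ∧ ∀ z : ℂ, ‖Q.eval z‖ ≤ K * (2 + ‖z‖) ^ Q.natDegree := by
  refine ⟨∑ i ∈ Finset.range (Q.natDegree + 1), ‖Q.coeff i‖ + 1, ?_, fun z => ?_⟩
  · have : 0 ≤ ∑ i ∈ Finset.range (Q.natDegree + 1), ‖Q.coeff i‖ := Finset.sum_nonneg fun _ _ => norm_nonneg _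
    linarith
  · have h1 : (1 : ℝ) ≤ 2 + ‖z‖ := by linarith [norm_nonneg z]
    rw [Polynomial.eval_eq_sum_range]
    refine (norm_sum_le _ _).trans ?_
    have h2 : ∑ i ∈ Finset.range (Q.natDegree + 1), ‖Q.coeff i * z ^ i‖ ≤
        ∑ i ∈ Finset.range (Q.natDegree + 1), ‖Q.coeff i‖ * (2 + ‖z‖) ^ Q.natDegree := by
      refine Finset.sum_le_sum fun i hi => ?_
      rw [norm_mul, norm_pow]
      refine mul_le_mul_of_nonneg_left ?_ (norm_nonneg _)
      calc ‖z‖ ^ i ≤ (2 + ‖z‖) ^ i := pow_le_pow_left₀ (norm_nonneg _) (by linarith) _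
        _ ≤ (2 + ‖z‖) ^ Q.natDegree := pow_le_pow_right₀ h1 (by simpa [Nat.lt_succ_iff] using hi)
    refine h2.trans ?_
    rw [← Finset.sum_mul]
    have h3 : (0 : ℝ) ≤ (2 + ‖z‖) ^ Q.natDegree := by positivity
    nlinarith

theorem ev_le (a : Dat) (C : ℝ) :
    ∃ (A : ℕ) (K : ℝ), 0 < K ∧ ∀ z, Reg C z → ‖ev a z‖ ≤ K * (2 + ‖z‖) ^ A := by
  have key : ∀ s : Finset ℝ, ∃ (A : ℕ) (K : ℝ), 0 < K ∧ ∀ z, Reg C z →
      ‖∑ ν ∈ s, (a ν).eval z * Complex.exp (Complex.I * ν * z)‖ ≤ K * (2 + ‖z‖) ^ A := by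
    intro s
    induction s using Finset.induction_on with
    | empty => exact ⟨0, 1, one_pos, fun z _ => by simp⟩
    | insert ν s hν ih =>
      obtain ⟨A, K, hK, h⟩ := ih
      obtain ⟨L, hL, hQ⟩ := poly_le (a ν)
      refine ⟨A + ((a ν).natDegree + ⌈|ν| * C⌉₊), K + L * Real.exp |ν|, by positivity, fun z hz => ?_⟩
      rw [Finset.sum_insert hν]
      have h1 : (1 : ℝ) ≤ 2 + ‖z‖ := by linarith [norm_nonneg z]
      have h2 : (2 + ‖z‖) ^ A ≤ (2 + ‖z‖) ^ (A + ((a ν).natDegree + ⌈|ν| * C⌉₊)) :=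
        pow_le_pow_right₀ h1 (by omega)
      have h3 : (2 + ‖z‖) ^ ((a ν).natDegree + ⌈|ν| * C⌉₊) ≤ (2 + ‖z‖) ^ (A + ((a ν).natDegree + ⌈|ν| * C⌉₊)) :=
        pow_le_pow_right₀ h1 (by omega)
      have h4 : ‖(a ν).eval z * Complex.exp (Complex.I * ν * z)‖ ≤
          L * Real.exp |ν| * (2 + ‖z‖) ^ ((a ν).natDegree + ⌈|ν| * C⌉₊) := by
        rw [norm_mul, pow_add]
        calc _ ≤ (L * (2 + ‖z‖) ^ (a ν).natDegree) * (Real.exp |ν| * (2 + ‖z‖) ^ ⌈|ν| * C⌉₊) :=
              mul_le_mul (hQ z) (exp_up ν hz) (norm_nonneg _) (by positivity)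
          _ = _ := by ring
      refine (norm_add_le _ _).trans ?_
      have h5 := h z hz
      have h6 : L * Real.exp |ν| * (2 + ‖z‖) ^ ((a ν).natDegree + ⌈|ν| * C⌉₊) ≤
          L * Real.exp |ν| * (2 + ‖z‖) ^ (A + ((a ν).natDegree + ⌈|ν| * C⌉₊)) :=
        mul_le_mul_of_nonneg_left h3 (by positivity)
      have h7 : K * (2 + ‖z‖) ^ A ≤ K * (2 + ‖z‖) ^ (A + ((a ν).natDegree + ⌈|ν| * C⌉₊)) :=
        mul_le_mul_of_nonneg_left h2 hK.le
      nlinarith
  obtain ⟨A, K, hK, h⟩ := key a.support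
  exact ⟨A, K, hK, fun z hz => by rw [ev_sum a _ (Finset.Subset.refl _)]; exact h z hz⟩

/-! ## Lower bounds -/

/-- the size of the data -/
noncomputable def size (a : Dat) : ℕ := ∑ ν ∈ a.support, ((a ν).natDegree + 1)

theorem size_tw {a : Dat} {ν₀ : ℝ} (h : ν₀ ∈ a.support) : size (tw ν₀ a) < size a := by
  classical
  have hle : ∀ ν, (tw ν₀ a ν).natDegree ≤ (a ν).natDegree := by
    intro ν
    rw [tw_apply]
    refine (natDegree_add_le _ _).trans (max_le ?_ ?_)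
    · exact (natDegree_derivative_le _).trans (Nat.sub_le _ _)
    · exact natDegree_C_mul_le _ _
  unfold size
  by_cases h0 : (a ν₀).natDegree = 0
  · have h1 : ν₀ ∉ (tw ν₀ a).support := by
      rw [Finsupp.notMem_support_iff, tw_apply]
      have : derivative (a ν₀) = 0 := derivative_of_natDegree_zero h0
      simp [this]
    calc ∑ ν ∈ (tw ν₀ a).support, ((tw ν₀ a ν).natDegree + 1)
        ≤ ∑ ν ∈ a.support.erase ν₀, ((a ν).natDegree + 1) := by
          refine (Finset.sum_le_sum fun ν _ => Nat.add_le_add_right (hle ν) 1).trans ?_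
          refine Finset.sum_le_sum_of_subset ?_
          intro ν hν
          rw [Finset.mem_erase]
          exact ⟨fun h2 => h1 (h2 ▸ hν), tw_supp ν₀ a hν⟩
      _ < ∑ ν ∈ a.support, ((a ν).natDegree + 1) := by
          rw [← Finset.add_sum_erase a.support (fun ν => (a ν).natDegree + 1) h]
          omega
  · calc ∑ ν ∈ (tw ν₀ a).support, ((tw ν₀ a ν).natDegree + 1)
        ≤ ∑ ν ∈ a.support, ((tw ν₀ a ν).natDegree + 1) := Finset.sum_le_sum_of_subset (tw_supp ν₀ a)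
      _ < ∑ ν ∈ a.support, ((a ν).natDegree + 1) := by
          refine Finset.sum_lt_sum (fun ν _ => Nat.add_le_add_right (hle ν) 1) ⟨ν₀, h, ?_⟩
          have h2 : tw ν₀ a ν₀ = derivative (a ν₀) := by rw [tw_apply]; simp
          rw [h2]
          have := natDegree_derivative_lt h0
          omega

theorem tw_ne {a : Dat} {ν₀ ν₁ : ℝ} (h : ν₁ ∈ a.support) (hne : ν₁ ≠ ν₀) : tw ν₀ a ≠ 0 := by
  intro h0
  have h1 : tw ν₀ a ν₁ = 0 := by rw [h0]; rfl
  rw [tw_apply] at h1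
  have h2 : a ν₁ ≠ 0 := Finsupp.mem_support_iff.mp h
  have h3 : Complex.I * ((ν₁ : ℂ) - ν₀) ≠ 0 := by
    refine mul_ne_zero Complex.I_ne_zero (sub_ne_zero.mpr ?_)
    exact_mod_cast hne
  have h4 := congrArg (fun P : Polynomial ℂ => P.coeff (a ν₁).natDegree) h1
  simp only [coeff_add, coeff_derivative, coeff_C_mul, coeff_zero] at h4
  rw [coeff_eq_zero_of_natDegree_lt (Nat.lt_succ_self _), zero_mul, zero_add] at h4
  rcases mul_eq_zero.mp h4 with h5 | h5
  · exact h3 h5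
  · exact h2 (leadingCoeff_eq_zero.mp h5)

theorem tw_ne' {a : Dat} {ν₀ : ℝ} (h : (a ν₀).natDegree ≠ 0) : tw ν₀ a ≠ 0 := by
  intro h0
  have h1 : tw ν₀ a ν₀ = 0 := by rw [h0]; rfl
  rw [tw_apply] at h1
  have h2 : derivative (a ν₀) = 0 := by simpa using h1
  exact h (natDegree_eq_zero_of_derivative_eq_zero h2)

theorem ev_low (C : ℝ) (a : Dat) (ha : a ≠ 0) :
    ∃ (r A : ℕ) (κ : ℝ), 0 < κ ∧ ∀ z, Reg C z → ∃ m ≤ r, κ / (2 + ‖z‖) ^ A ≤ ‖iteratedDeriv m (ev a) z‖ := by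
  induction hn : size a using Nat.strong_induction_on generalizing a with
  | _ n ih =>
    subst hn
    obtain ⟨ν₀, hν₀⟩ : a.support.Nonempty := Finsupp.support_nonempty_iff.mpr ha
    by_cases hbig : tw ν₀ a ≠ 0
    · obtain ⟨r, A, κ, hκ, h⟩ := ih _ (size_tw hν₀) (tw ν₀ a) hbig rfl
      have hpos : (0 : ℝ) < 1 + |ν₀| := by positivity
      refine ⟨r + 1, A, κ / (1 + |ν₀|), by positivity, fun z hz => ?_⟩
      obtain ⟨m, hm, hlow⟩ := h z hz
      have hcomp : ev (tw ν₀ a) = fun w => ev (tw 0 a) w - Complex.I * ν₀ * ev a w := by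
        funext w; exact ev_tw ν₀ a w
      have hiter : iteratedDeriv m (ev (tw ν₀ a)) z =
          iteratedDeriv (m + 1) (ev a) z - Complex.I * ν₀ * iteratedDeriv m (ev a) z := by
        have hcd : ∀ b : Dat, ContDiff ℂ ⊤ (ev b) := fun b => (differentiable_ev b).contDiff
        rw [hcomp]
        have e1 : iteratedDeriv m (fun w => ev (tw 0 a) w - Complex.I * ν₀ * ev a w) z =
            iteratedDeriv m (ev (tw 0 a)) z - iteratedDeriv m (fun w => Complex.I * ν₀ * ev a w) z := by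
          exact iteratedDeriv_fun_sub ((hcd _).contDiffAt.of_le (by simp))
            (((hcd a).const_smul (Complex.I * (ν₀ : ℂ))).contDiffAt.of_le (by simp))
        rw [e1]
        congr 1
        · rw [iteratedDeriv_succ', deriv_ev]
        · exact iteratedDeriv_const_mul_field _ _
      rw [hiter] at hlow
      by_contra hcon
      push Not at hcon
      have h1 := hcon m (by omega)
      have h2 := hcon (m + 1) (by omega)
      have h3 : ‖iteratedDeriv (m + 1) (ev a) z - Complex.I * ν₀ * iteratedDeriv m (ev a) z‖ ≤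
          ‖iteratedDeriv (m + 1) (ev a) z‖ + |ν₀| * ‖iteratedDeriv m (ev a) z‖ := by
        refine (norm_sub_le _ _).trans ?_
        rw [norm_mul, norm_mul, Complex.norm_I, one_mul, Complex.norm_real, Real.norm_eq_abs]
      have h4 : κ / (1 + |ν₀|) / (2 + ‖z‖) ^ A + |ν₀| * (κ / (1 + |ν₀|) / (2 + ‖z‖) ^ A) =
          κ / (2 + ‖z‖) ^ A := by
        field_simp
      have h5 : |ν₀| * ‖iteratedDeriv m (ev a) z‖ ≤ |ν₀| * (κ / (1 + |ν₀|) / (2 + ‖z‖) ^ A) :=
        mul_le_mul_of_nonneg_left h1.le (abs_nonneg _)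
      linarith
    · push Not at hbig
      have hs : a.support = {ν₀} := by
        refine Finset.eq_singleton_iff_unique_mem.mpr ⟨hν₀, fun ν hν => ?_⟩
        by_contra hne
        exact tw_ne hν hne hbig
      have hd : (a ν₀).natDegree = 0 := by
        by_contra hne
        exact tw_ne' hne hbig
      obtain ⟨c, hc⟩ := natDegree_eq_zero.mp hd
      have hc0 : c ≠ 0 := by
        rintro rfl
        exact (Finsupp.mem_support_iff.mp hν₀) (by rw [← hc]; simp)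
      refine ⟨0, ⌈|ν₀| * C⌉₊, ‖c‖ * (Real.exp |ν₀|)⁻¹, by positivity, fun z hz => ⟨0, le_refl 0, ?_⟩⟩
      rw [iteratedDeriv_zero, ev_sum a _ (Finset.Subset.refl _), hs, Finset.sum_singleton, ← hc, eval_C, norm_mul]
      have h1 := exp_lo ν₀ hz
      have h2 := mul_le_mul_of_nonneg_left h1 (norm_nonneg c)
      refine le_trans (le_of_eq ?_) h2
      field_simp

end Pool.Agent.EHD
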