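import Pool.Agent.EHD.Near
import Pool.Agent.EHD.Haus

/-!
# The exceptional parameters in one logarithmic region have Hausdorff measure zero
-/

open Polynomial Pool.Agent.EHD MeasureTheory

namespace Pool.Agent.EHD

/-- the parameters with a pair of close zeros in the `n`-th annulus -/
def Xs (b : Dat) (k : ℕ) (C : ℝ) (q n : ℕ) : Set ℂ :=
  {c | ∃ z₁ z₂ : ℂ, ev b z₁ + c * z₁ ^ k = 0 ∧ ev b z₂ + c * z₂ ^ k = 0 ∧ z₁ ≠ z₂ ∧ 2 ^ n ≤ ‖z₁‖ ∧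
    ‖z₁‖ < 2 ^ (n + 1) ∧ ‖z₂ - z₁‖ ≤ ((2 : ℝ) ^ (q * n))⁻¹ ∧ |z₁.im| ≤ C * Real.log (2 + ‖z₁‖)}

theorem two_add_le {n : ℕ} (hn : 1 ≤ n) {x : ℝ} (hx : x ≤ 2 ^ (n + 1) + 1) : 2 + x ≤ 2 ^ (n + 2) := by
  have e3 : (4 : ℝ) ≤ 2 ^ (n + 1) := by
    calc (4 : ℝ) = 2 ^ 2 := by norm_num
      _ ≤ 2 ^ (n + 1) := pow_le_pow_right₀ one_le_two (by omega)
  calc 2 + x ≤ 2 ^ (n + 1) + 2 ^ (n + 1) := by linarith
    _ = 2 ^ (n + 2) := by ring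

theorem four_pow (n A : ℕ) : ((2 : ℝ) ^ (n + 2)) ^ A = 4 ^ A * 2 ^ (A * n) := by
  rw [← pow_mul, mul_comm A n, pow_mul 2 n A, pow_mul, pow_add, mul_pow]
  norm_num
  ring

theorem cov_main (b : Dat) (k : ℕ) (hb : eul k b ≠ 0) (C : ℝ) (hC : 0 ≤ C) :
    ∃ B : ℕ, ∀ Dn : ℕ, ∃ (q n₀ : ℕ) (K : ℝ), ∀ n, n₀ ≤ n → ∃ (N : ℕ) (U : Fin N → Set ℂ),
      Xs b k C q n ⊆ ⋃ i, U i ∧ (N : ℝ) ≤ K * 2 ^ (2 * (B + 1) * n) ∧
      ∀ i, ∀ c ∈ U i, ∀ c' ∈ U i, ‖c - c'‖ ≤ K * ((2 : ℝ) ^ (Dn * n))⁻¹ := by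
  obtain ⟨r, B, hB, hcov⟩ := cover_core (eul k b) hb C hC
  obtain ⟨A₁, K₁, hK₁, h₁⟩ := near_double_c b k C hC
  obtain ⟨A₂, K₂, hK₂, h₂⟩ := G_lip b k C
  refine ⟨B, fun Dn => ?_⟩
  obtain ⟨q₀, n₁, hn₁⟩ := hcov (Dn + A₂)
  obtain ⟨n₂, hn₂⟩ := pow_big (2 * (C + 1))
  obtain ⟨n₃, hn₃⟩ := pow_big (K₁ * 4 ^ A₁)
  refine ⟨q₀ + A₁ + 1, max (max n₁ n₂) (max n₃ 1), 16 * r + 2 * K₂ * 4 ^ A₂, fun n hn => ?_⟩
  have hn1 : n₁ ≤ n := le_trans (le_trans (le_max_left _ _) (le_max_left _ _)) hn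
  have hn2 : n₂ ≤ n := le_trans (le_trans (le_max_right _ _) (le_max_left _ _)) hn
  have hn3 : n₃ ≤ n := le_trans (le_trans (le_max_left _ _) (le_max_right _ _)) hn
  have hn4 : 1 ≤ n := le_trans (le_trans (le_max_right _ _) (le_max_right _ _)) hn
  have g2 := hn₂ n hn2
  have g3 := hn₃ n hn3
  have hC1 : (0 : ℝ) < C + 1 := by linarith
  have hone : 1 / (C + 1) ≤ 1 := by
    rw [div_le_one hC1]; linarith
  -- the grid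
  obtain ⟨M, hMdef⟩ : ∃ M : ℕ, M = 4 * 2 ^ n * 2 ^ (B * n) := ⟨_, rfl⟩
  obtain ⟨Dg, hconv, hdiam, hgrid⟩ := grid ((2 : ℝ) ^ (n + 1)) (((2 : ℝ) ^ (B * n))⁻¹) (by positivity)
    M (by
      rw [hMdef]
      push_cast
      rw [mul_assoc, mul_inv_cancel₀ (by positivity)]
      rw [pow_succ]
      linarith)
  have hV := fun p => hn₁ n hn1 (Dg p) (hconv p) (hdiam p)
  choose V hV1 hV2 using hV
  let U : (Fin M × Fin M) × Fin r → Set ℂ := fun pi => {c | ∃ z ∈ Dg pi.1, z ∈ V pi.1 pi.2 ∧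
    |z.im| ≤ C * Real.log (2 + ‖z‖) ∧ 2 ^ n ≤ ‖z‖ ∧ ‖z‖ < 2 ^ (n + 1) ∧ c = -ev b z / z ^ k}
  have hcard : Fintype.card ((Fin M × Fin M) × Fin r) = M * M * r := by simp
  refine ⟨Fintype.card ((Fin M × Fin M) × Fin r),
    fun j => U ((Fintype.equivFin ((Fin M × Fin M) × Fin r)).symm j), ?_, ?_, ?_⟩
  · -- covering
    rintro c ⟨z₁, z₂, e₁, e₂, hne, hlo, hhi, hd, him⟩
    have hge : (2 : ℝ) ≤ 2 ^ n := by
      calc (2 : ℝ) = 2 ^ 1 := by norm_num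
        _ ≤ 2 ^ n := pow_le_pow_right₀ one_le_two hn4
    have hz1 : 1 ≤ ‖z₁‖ := by linarith
    have hz1' : z₁ ≠ 0 := by
      intro h0
      rw [h0, norm_zero] at hz1
      linarith
    have hd' : ‖z₂ - z₁‖ ≤ 1 / (C + 1) := by
      refine hd.trans ?_
      rw [inv_eq_one_div]
      refine one_div_le_one_div_of_le hC1 ?_
      have : (2 : ℝ) ^ n ≤ 2 ^ ((q₀ + A₁ + 1) * n) := pow_le_pow_right₀ one_le_two (by nlinarith)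
      linarith
    have hsmall := h₁ c z₁ z₂ hne e₁ e₂ hz1 him hd'
    have h2z : 2 + ‖z₁‖ ≤ 2 ^ (n + 2) := two_add_le hn4 (by linarith)
    have hsmall' : ‖ev (eul k b) z₁‖ ≤ ((2 : ℝ) ^ (q₀ * n))⁻¹ := by
      have a1 : K₁ * (2 + ‖z₁‖) ^ A₁ * ‖z₂ - z₁‖ ≤
          K₁ * (2 ^ (n + 2)) ^ A₁ * ((2 : ℝ) ^ ((q₀ + A₁ + 1) * n))⁻¹ := by
        refine mul_le_mul ?_ hd (norm_nonneg _) (by positivity)
        exact mul_le_mul_of_nonneg_left (pow_le_pow_left₀ (by positivity) h2z _) hK₁.le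
      refine hsmall.trans (a1.trans ?_)
      rw [four_pow]
      have a2 : (2 : ℝ) ^ ((q₀ + A₁ + 1) * n) = 2 ^ (q₀ * n) * 2 ^ (A₁ * n) * 2 ^ n := by
        rw [← pow_add, ← pow_add]; congr 1; ring
      rw [a2]
      have a3 : K₁ * (4 ^ A₁ * 2 ^ (A₁ * n)) * ((2 : ℝ) ^ (q₀ * n) * 2 ^ (A₁ * n) * 2 ^ n)⁻¹ =
          (K₁ * 4 ^ A₁ / 2 ^ n) * ((2 : ℝ) ^ (q₀ * n))⁻¹ := by
        field_simp
      rw [a3]
      have a4 : K₁ * 4 ^ A₁ / 2 ^ n ≤ 1 := by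
        rw [div_le_one (by positivity)]; exact g3
      exact mul_le_of_le_one_left (by positivity) a4
    obtain ⟨p, hp⟩ := hgrid z₁ hhi
    have hzV := hV1 p ⟨hp, him, hhi.le, hsmall'⟩
    obtain ⟨i, hi⟩ := Set.mem_iUnion.mp hzV
    refine Set.mem_iUnion.mpr ⟨Fintype.equivFin _ (p, i), ?_⟩
    have hcz : c = -ev b z₁ / z₁ ^ k := by
      rw [eq_div_iff (pow_ne_zero k hz1')]
      linear_combination e₁
    simp only [Equiv.symm_apply_apply]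
    exact ⟨z₁, hp, hi, him, hlo, hhi, hcz⟩
  · -- the number of sets
    rw [hcard]
    have b1 : (2 : ℝ) ^ (2 * (B + 1) * n) = (2 ^ n * 2 ^ (B * n)) * (2 ^ n * 2 ^ (B * n)) := by
      rw [← pow_add, ← pow_add]; congr 1; ring
    rw [b1, hMdef]
    push_cast
    have b2 : (0 : ℝ) ≤ 2 * K₂ * 4 ^ A₂ * ((2 ^ n * 2 ^ (B * n)) * (2 ^ n * 2 ^ (B * n))) := by positivity
    nlinarith
  · -- the diameters
    intro j c hc c' hc'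
    obtain ⟨z, hzD, hzV, him, hlo, hhi, rfl⟩ := hc
    obtain ⟨z', hzD', hzV', him', hlo', hhi', rfl⟩ := hc'
    set pi := (Fintype.equivFin ((Fin M × Fin M) × Fin r)).symm j with hpi
    have hge : (2 : ℝ) ≤ 2 ^ n := by
      calc (2 : ℝ) = 2 ^ 1 := by norm_num
        _ ≤ 2 ^ n := pow_le_pow_right₀ one_le_two hn4
    have hρ : 2 * ((2 : ℝ) ^ (B * n))⁻¹ ≤ 1 / (C + 1) := by
      have e1 : (2 : ℝ) ^ n ≤ 2 ^ (B * n) := pow_le_pow_right₀ one_le_two (by nlinarith)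
      rw [← div_eq_mul_inv, div_le_div_iff₀ (by positivity) (by positivity)]
      linarith
    have hreg : ∀ x ∈ Dg pi.1, 1 ≤ ‖x‖ ∧ Reg C x ∧ 2 + ‖x‖ ≤ 2 ^ (n + 2) := by
      intro x hx
      have hd := (hdiam pi.1 x hx z hzD).trans hρ
      have e1 : ‖x‖ ≤ ‖z‖ + ‖x - z‖ := by
        calc ‖x‖ = ‖z + (x - z)‖ := by ring_nf
          _ ≤ _ := norm_add_le _ _
      have e2 : ‖z‖ ≤ ‖x‖ + ‖x - z‖ := by
        calc ‖z‖ = ‖x - (x - z)‖ := by ring_nf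
          _ ≤ _ := norm_sub_le _ _
      exact ⟨by linarith, reg_of_near hC him hd, two_add_le hn4 (by linarith)⟩
    have hl := h₂ (Dg pi.1) (2 ^ (n + 2)) (hconv pi.1) hreg z hzD z' hzD'
    have hd := hV2 pi.1 pi.2 z hzV z' hzV'
    refine hl.trans ?_
    have c1 : K₂ * (2 ^ (n + 2)) ^ A₂ * ‖z - z'‖ ≤
        K₂ * (2 ^ (n + 2)) ^ A₂ * (2 * ((2 : ℝ) ^ ((Dn + A₂) * n))⁻¹) :=
      mul_le_mul_of_nonneg_left hd (by positivity)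
    refine c1.trans ?_
    rw [four_pow]
    have c2 : (2 : ℝ) ^ ((Dn + A₂) * n) = 2 ^ (Dn * n) * 2 ^ (A₂ * n) := by
      rw [← pow_add]; congr 1; ring
    rw [c2]
    have c3 : K₂ * (4 ^ A₂ * 2 ^ (A₂ * n)) * (2 * ((2 : ℝ) ^ (Dn * n) * 2 ^ (A₂ * n))⁻¹) =
        2 * K₂ * 4 ^ A₂ * ((2 : ℝ) ^ (Dn * n))⁻¹ := by
      field_simp
    rw [c3]
    refine mul_le_mul_of_nonneg_right ?_ (by positivity)
    have : (0 : ℝ) ≤ 16 * r := by positivity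
    linarith

/-- the exceptional parameters whose zeros lie in the logarithmic region with constant `C` -/
def Ex (b : Dat) (k : ℕ) (C : ℝ) : Set ℂ :=
  {c | (∃ z, ev b z + c * z ^ k ≠ 0) ∧
    (∀ z, ev b z + c * z ^ k = 0 → |z.im| ≤ C * Real.log (2 + ‖z‖)) ∧
    ¬ Sep (fun z => ev b z + c * z ^ k)}

theorem haus_Ex (b : Dat) (k : ℕ) (hb : eul k b ≠ 0) (C : ℝ) (hC : 0 ≤ C)
    (hfreq : ∀ c ∈ Ex b k C, ∀ q : ℕ, ∃ᶠ n : ℕ in Filter.atTop, ∃ z₁ z₂ : ℂ,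
      ev b z₁ + c * z₁ ^ k = 0 ∧ ev b z₂ + c * z₂ ^ k = 0 ∧ z₁ ≠ z₂ ∧
      2 ^ n ≤ ‖z₁‖ ∧ ‖z₁‖ < 2 ^ (n + 1) ∧ ‖z₂ - z₁‖ ≤ ((2 : ℝ) ^ (q * n))⁻¹)
    (s : ℝ) (hs : 0 < s) : Measure.hausdorffMeasure s (Ex b k C) = 0 := by
  obtain ⟨B, hcov⟩ := cov_main b k hb C hC
  obtain ⟨Dn, hDn⟩ := exists_nat_gt ((2 * ((B : ℝ) + 1)) / s)
  obtain ⟨q, n₀, K, h⟩ := hcov Dn
  refine haus_zero s hs (Ex b k C) (Xs b k C q) ?_ (2 * ((B : ℝ) + 1)) Dn K ?_ n₀ ?_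
  · intro c hc
    refine (hfreq c hc q).mono ?_
    rintro n ⟨z₁, z₂, h1, h2, h3, h4, h5, h6⟩
    exact ⟨z₁, z₂, h1, h2, h3, h4, h5, h6, hc.2.1 z₁ h1⟩
  · rw [div_lt_iff₀ hs] at hDn
    linarith
  · intro n hn
    obtain ⟨N, U, hU, hN, hd⟩ := h n hn
    refine ⟨N, U, hU, ?_, ?_⟩
    · have : (2 : ℝ) ^ (2 * ((B : ℝ) + 1) * n) = 2 ^ (2 * (B + 1) * n) := by
        rw [← Real.rpow_natCast]
        push_cast
        rfl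
      rw [this]
      exact hN
    · have : (2 : ℝ) ^ (-((Dn : ℝ) * n)) = ((2 : ℝ) ^ (Dn * n))⁻¹ := by
        rw [Real.rpow_neg (by norm_num), ← Real.rpow_natCast]
        push_cast
        rfl
      rw [this]
      exact hd

end Pool.Agent.EHD
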