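import Pool.Agent.EHD.Cov

/-!
# Two close zeros of `g(z) + c z^k`; the parameter `c` as a function of the zero
-/

open Polynomial Pool.Agent.EHD

namespace Pool.Agent.EHD

theorem ev_add (a b : Dat) (z : ℂ) : ev (a + b) z = ev a z + ev b z := by
  unfold ev
  exact Finsupp.sum_add_index' (fun _ => by simp) (fun _ _ _ => by rw [eval_add, add_mul])

theorem ev_smul (Q : Polynomial ℂ) (a : Dat) (z : ℂ) : ev (Q • a) z = Q.eval z * ev a z := by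
  rw [ev_sum (Q • a) a.support Finsupp.support_smul, ev_sum a _ (Finset.Subset.refl _), Finset.mul_sum]
  refine Finset.sum_congr rfl fun ν _ => ?_
  rw [Finsupp.smul_apply, smul_eq_mul, eval_mul]
  ring

theorem ev_single (ν : ℝ) (Q : Polynomial ℂ) (z : ℂ) :
    ev (Finsupp.single ν Q) z = Q.eval z * Complex.exp (Complex.I * ν * z) := by
  unfold ev
  rw [Finsupp.sum_single_index (by simp)]

/-- the data of `z b'(z) - k b(z)` -/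
noncomputable def eul (k : ℕ) (b : Dat) : Dat := (X : Polynomial ℂ) • tw 0 b + (C (-(k : ℂ))) • b

theorem ev_eul (k : ℕ) (b : Dat) (z : ℂ) : ev (eul k b) z = z * ev (tw 0 b) z - k * ev b z := by
  rw [eul, ev_add, ev_smul, ev_smul]
  simp
  ring

theorem near_double_c (b : Dat) (k : ℕ) (C : ℝ) (hC : 0 ≤ C) : ∃ (A : ℕ) (K : ℝ), 0 < K ∧
    ∀ c z₁ z₂ : ℂ, z₁ ≠ z₂ → ev b z₁ + c * z₁ ^ k = 0 → ev b z₂ + c * z₂ ^ k = 0 → 1 ≤ ‖z₁‖ →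
      |z₁.im| ≤ C * Real.log (2 + ‖z₁‖) → ‖z₂ - z₁‖ ≤ 1 / (C + 1) →
      ‖ev (eul k b) z₁‖ ≤ K * (2 + ‖z₁‖) ^ A * ‖z₂ - z₁‖ := by
  obtain ⟨A₀, K₀, hK₀, h₀⟩ := ev_le b C
  obtain ⟨A₁, K₁, hK₁, h₁⟩ := ev_le (tw 0 (tw 0 b)) C
  obtain ⟨A₂, K₂, hK₂, h₂⟩ := ev_le (tw 0 (tw 0 (Finsupp.single 0 ((X : Polynomial ℂ) ^ k)))) C
  refine ⟨A₀ + A₁ + A₂ + 1, K₁ * 2 ^ A₁ + K₀ * K₂ * 2 ^ A₂, by positivity, ?_⟩
  intro c z₁ z₂ hne e₁ e₂ hz₁ him hd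
  have hp : ∀ z, ev (Finsupp.single 0 ((X : Polynomial ℂ) ^ k)) z = z ^ k := by
    intro z
    rw [ev_single]
    simp
  have hp' : ∀ z, z * ev (tw 0 (Finsupp.single 0 ((X : Polynomial ℂ) ^ k))) z = k * z ^ k := by
    intro z
    have u1 := hasDerivAt_ev (Finsupp.single 0 ((X : Polynomial ℂ) ^ k)) z
    have u2 : ev (Finsupp.single 0 ((X : Polynomial ℂ) ^ k)) = fun z => z ^ k := funext hp
    rw [u2] at u1
    have u3 := u1.unique (hasDerivAt_pow k z)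
    rw [u3]
    rcases k with _ | k
    · simp
    · simp only [Nat.add_sub_cancel]
      ring
  set p : Dat := Finsupp.single 0 ((X : Polynomial ℂ) ^ k) with hpdef
  have hR1 : (1 : ℝ) ≤ 2 + ‖z₁‖ := by linarith [norm_nonneg z₁]
  -- the size of c
  have hc : ‖c‖ ≤ K₀ * (2 + ‖z₁‖) ^ A₀ := by
    have v1 : c * z₁ ^ k = -ev b z₁ := by linear_combination e₁
    have v2 : ‖c‖ * ‖z₁‖ ^ k ≤ K₀ * (2 + ‖z₁‖) ^ A₀ := by
      rw [← norm_pow, ← norm_mul, v1, norm_neg]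
      exact h₀ z₁ (by unfold Reg; linarith)
    have v3 : (1 : ℝ) ≤ ‖z₁‖ ^ k := one_le_pow₀ hz₁
    nlinarith [norm_nonneg c]
  -- the bound of the second derivative
  set M : ℝ := (K₁ * 2 ^ A₁ + K₀ * K₂ * 2 ^ A₂) * (2 + ‖z₁‖) ^ (A₀ + A₁ + A₂) with hM
  have hMpos : 0 ≤ M := by positivity
  have hone : 1 / (C + 1) ≤ 1 := by
    rw [div_le_one (by positivity)]; linarith
  have hball : ∀ z ∈ Metric.closedBall z₁ ‖z₂ - z₁‖, Reg C z ∧ 2 + ‖z‖ ≤ 2 * (2 + ‖z₁‖) := by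
    intro z hz
    rw [Metric.mem_closedBall, dist_eq_norm] at hz
    refine ⟨reg_of_near hC him (hz.trans hd), ?_⟩
    have w1 : ‖z‖ ≤ ‖z₁‖ + ‖z - z₁‖ := by
      calc ‖z‖ = ‖z₁ + (z - z₁)‖ := by ring_nf
        _ ≤ _ := norm_add_le _ _
    linarith
  have hsec : ∀ z ∈ Metric.closedBall z₁ ‖z₂ - z₁‖,
      ‖ev (tw 0 (tw 0 b)) z + c * ev (tw 0 (tw 0 p)) z‖ ≤ M := by
    intro z hz
    obtain ⟨hreg, hsz⟩ := hball z hz
    have w0 : (0 : ℝ) ≤ 2 + ‖z‖ := by positivity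
    have w1 : ‖ev (tw 0 (tw 0 b)) z‖ ≤ K₁ * (2 ^ A₁ * (2 + ‖z₁‖) ^ A₁) := by
      refine (h₁ z hreg).trans (mul_le_mul_of_nonneg_left ?_ hK₁.le)
      rw [← mul_pow]
      exact pow_le_pow_left₀ w0 hsz _
    have w2 : ‖ev (tw 0 (tw 0 p)) z‖ ≤ K₂ * (2 ^ A₂ * (2 + ‖z₁‖) ^ A₂) := by
      refine (h₂ z hreg).trans (mul_le_mul_of_nonneg_left ?_ hK₂.le)
      rw [← mul_pow]
      exact pow_le_pow_left₀ w0 hsz _
    refine (norm_add_le _ _).trans ?_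
    rw [norm_mul]
    have w3 : ‖c‖ * ‖ev (tw 0 (tw 0 p)) z‖ ≤ (K₀ * (2 + ‖z₁‖) ^ A₀) * (K₂ * (2 ^ A₂ * (2 + ‖z₁‖) ^ A₂)) :=
      mul_le_mul hc w2 (norm_nonneg _) (by positivity)
    have w4 : (2 + ‖z₁‖) ^ A₁ ≤ (2 + ‖z₁‖) ^ (A₀ + A₁ + A₂) := pow_le_pow_right₀ hR1 (by omega)
    have w5 : (2 + ‖z₁‖) ^ (A₀ + A₂) ≤ (2 + ‖z₁‖) ^ (A₀ + A₁ + A₂) := pow_le_pow_right₀ hR1 (by omega)
    have w6 : (K₀ * (2 + ‖z₁‖) ^ A₀) * (K₂ * (2 ^ A₂ * (2 + ‖z₁‖) ^ A₂)) =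
        K₀ * K₂ * 2 ^ A₂ * (2 + ‖z₁‖) ^ (A₀ + A₂) := by rw [pow_add]; ring
    have w7 : K₀ * K₂ * 2 ^ A₂ * (2 + ‖z₁‖) ^ (A₀ + A₂) ≤
        K₀ * K₂ * 2 ^ A₂ * (2 + ‖z₁‖) ^ (A₀ + A₁ + A₂) := mul_le_mul_of_nonneg_left w5 (by positivity)
    have w8 : K₁ * (2 ^ A₁ * (2 + ‖z₁‖) ^ A₁) ≤ K₁ * (2 ^ A₁ * (2 + ‖z₁‖) ^ (A₀ + A₁ + A₂)) := by
      refine mul_le_mul_of_nonneg_left (mul_le_mul_of_nonneg_left w4 (by positivity)) hK₁.le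
    rw [hM]
    linarith
  have hder : ∀ z, HasDerivAt (fun z => ev (tw 0 b) z + c * ev (tw 0 p) z)
      (ev (tw 0 (tw 0 b)) z + c * ev (tw 0 (tw 0 p)) z) z := fun z =>
    (hasDerivAt_ev _ z).add ((hasDerivAt_ev _ z).const_mul c)
  have hmem₁ : z₁ ∈ Metric.closedBall z₁ ‖z₂ - z₁‖ := Metric.mem_closedBall_self (norm_nonneg _)
  have hmem₂ : z₂ ∈ Metric.closedBall z₁ ‖z₂ - z₁‖ := by
    rw [Metric.mem_closedBall, dist_eq_norm]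
  set d₁ : ℂ := ev (tw 0 b) z₁ + c * ev (tw 0 p) z₁ with hd₁
  have hfirst : ∀ z ∈ Metric.closedBall z₁ ‖z₂ - z₁‖,
      ‖(ev (tw 0 b) z + c * ev (tw 0 p) z) - d₁‖ ≤ M * ‖z₂ - z₁‖ := by
    intro z hz
    have := (convex_closedBall z₁ ‖z₂ - z₁‖).norm_image_sub_le_of_norm_hasDerivWithin_le
      (fun y _ => (hder y).hasDerivWithinAt) hsec hmem₁ hz
    refine this.trans (mul_le_mul_of_nonneg_left ?_ hMpos)
    rwa [Metric.mem_closedBall, dist_eq_norm] at hz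
  have hphi : ∀ z, HasDerivAt (fun z => (ev b z + c * ev p z) - d₁ * z)
      ((ev (tw 0 b) z + c * ev (tw 0 p) z) - d₁) z := by
    intro z
    have u : HasDerivAt (fun z => (ev b z + c * ev p z) - d₁ * z)
        ((ev (tw 0 b) z + c * ev (tw 0 p) z) - d₁ * 1) z :=
      ((hasDerivAt_ev b z).add ((hasDerivAt_ev p z).const_mul c)).sub
        ((hasDerivAt_id' z).const_mul d₁)
    rwa [mul_one] at u
  have hfin := (convex_closedBall z₁ ‖z₂ - z₁‖).norm_image_sub_le_of_norm_hasDerivWithin_le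
      (fun y _ => (hphi y).hasDerivWithinAt) hfirst hmem₁ hmem₂
  have e3 : (ev b z₂ + c * ev p z₂) - d₁ * z₂ - ((ev b z₁ + c * ev p z₁) - d₁ * z₁) =
      -(d₁ * (z₂ - z₁)) := by
    rw [hp, hp, e₁, e₂]; ring
  have hpos : 0 < ‖z₂ - z₁‖ := norm_pos_iff.mpr (sub_ne_zero.mpr (Ne.symm hne))
  have e4 : ‖d₁‖ ≤ M * ‖z₂ - z₁‖ := by
    have : ‖d₁‖ * ‖z₂ - z₁‖ ≤ M * ‖z₂ - z₁‖ * ‖z₂ - z₁‖ := by
      rw [← norm_mul, ← norm_neg, ← e3]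
      exact hfin
    exact le_of_mul_le_mul_right this hpos
  have e5 : ev (eul k b) z₁ = z₁ * d₁ := by
    rw [ev_eul, hd₁]
    have := hp' z₁
    linear_combination (-(k : ℂ)) * e₁ - c * this
  rw [e5, norm_mul]
  have e6 : ‖z₁‖ ≤ 2 + ‖z₁‖ := by linarith
  calc ‖z₁‖ * ‖d₁‖ ≤ (2 + ‖z₁‖) * (M * ‖z₂ - z₁‖) := mul_le_mul e6 e4 (norm_nonneg _) (by positivity)
    _ = (K₁ * 2 ^ A₁ + K₀ * K₂ * 2 ^ A₂) * (2 + ‖z₁‖) ^ (A₀ + A₁ + A₂ + 1) * ‖z₂ - z₁‖ := by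
      rw [hM]; ring

theorem hasDerivAt_G (b : Dat) (k : ℕ) {z : ℂ} (hz : z ≠ 0) :
    HasDerivAt (fun z => -ev b z / z ^ k) (-ev (eul k b) z / z ^ (k + 1)) z := by
  have h1 := ((hasDerivAt_ev b z).neg).div (hasDerivAt_pow k z) (pow_ne_zero k hz)
  have h2 : (-ev (tw 0 b) z * z ^ k - -ev b z * (k * z ^ (k - 1))) / (z ^ k) ^ 2 =
      -ev (eul k b) z / z ^ (k + 1) := by
    rw [ev_eul]
    rcases k with _ | k
    · simp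
      field_simp
    · simp only [Nat.add_sub_cancel]
      field_simp
      push_cast
      ring
  rw [← h2]
  exact h1

theorem G_lip (b : Dat) (k : ℕ) (C : ℝ) : ∃ (A : ℕ) (K : ℝ), 0 < K ∧
    ∀ (D : Set ℂ) (R : ℝ), Convex ℝ D → (∀ z ∈ D, 1 ≤ ‖z‖ ∧ Reg C z ∧ 2 + ‖z‖ ≤ R) →
      ∀ z ∈ D, ∀ z' ∈ D, ‖-ev b z / z ^ k - -ev b z' / z' ^ k‖ ≤ K * R ^ A * ‖z - z'‖ := by
  obtain ⟨A, K, hK, h⟩ := ev_le (eul k b) C
  refine ⟨A, K, hK, fun D R hD hreg z hz z' hz' => ?_⟩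
  refine hD.norm_image_sub_le_of_norm_hasDerivWithin_le (f := fun z => -ev b z / z ^ k)
    (f' := fun z => -ev (eul k b) z / z ^ (k + 1)) (fun y hy => ?_) (fun y hy => ?_) hz' hz
  · have : y ≠ 0 := by
      intro h0
      have := (hreg y hy).1
      rw [h0, norm_zero] at this
      linarith
    exact (hasDerivAt_G b k this).hasDerivWithinAt
  · obtain ⟨h1, h2, h3⟩ := hreg y hy
    rw [norm_div, norm_neg, norm_pow]
    have h4 : (1 : ℝ) ≤ ‖y‖ ^ (k + 1) := one_le_pow₀ h1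
    refine (div_le_self (norm_nonneg _) h4).trans ((h y h2).trans ?_)
    refine mul_le_mul_of_nonneg_left ?_ hK.le
    exact pow_le_pow_left₀ (by positivity) h3 _

end Pool.Agent.EHD
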