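import Mathlib

/-!
# A nonconstant entire function is not injective near a critical point
-/

open Filter Topology

namespace Pool.Agent.EHD

theorem ev_ne (g : ℂ → ℂ) (hg : Differentiable ℂ g) (hne : ∃ z w, g z ≠ g w) (ζ c : ℂ) :
    ¬ ∀ᶠ z in 𝓝 ζ, g z = c := by
  intro h
  have h1 : AnalyticOnNhd ℂ g Set.univ := fun z _ => hg.analyticAt z
  have h2 : AnalyticOnNhd ℂ (fun _ : ℂ => c) Set.univ := fun z _ => analyticAt_const
  have h3 := h1.eqOn_of_preconnected_of_eventuallyEq h2 isPreconnected_univ (Set.mem_univ ζ) h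
  obtain ⟨z, w, hzw⟩ := hne
  exact hzw ((h3 (Set.mem_univ z)).trans (h3 (Set.mem_univ w)).symm)

theorem not_inj (g : ℂ → ℂ) (hg : Differentiable ℂ g) (hne : ∃ z w, g z ≠ g w) (ζ : ℂ) (h : deriv g ζ = 0)
    (ε : ℝ) (hε : 0 < ε) : ∃ z₁ z₂ : ℂ, z₁ ≠ z₂ ∧ ‖z₁ - ζ‖ < ε ∧ ‖z₂ - ζ‖ < ε ∧ g z₁ = g z₂ := by
  -- the order of `g - g ζ` at `ζ`
  have hf : AnalyticAt ℂ (fun z => g z - g ζ) ζ := (hg.analyticAt ζ).sub analyticAt_const
  have hne' : analyticOrderAt (fun z => g z - g ζ) ζ ≠ ⊤ := by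
    rw [Ne, analyticOrderAt_eq_top]
    intro h0
    refine ev_ne g hg hne ζ (g ζ) ?_
    filter_upwards [h0] with z hz
    exact sub_eq_zero.mp hz
  obtain ⟨m, k, hk, hk0, hfac⟩ : ∃ (m : ℕ) (k : ℂ → ℂ), AnalyticAt ℂ k ζ ∧ k ζ ≠ 0 ∧
      ∀ᶠ z in 𝓝 ζ, g z - g ζ = (z - ζ) ^ m • k z := by
    obtain ⟨m, hm⟩ := ENat.ne_top_iff_exists.mp hne'
    obtain ⟨k, hk, hk0, hfac⟩ := (hf.analyticOrderAt_eq_natCast).mp hm.symm
    exact ⟨m, k, hk, hk0, hfac⟩
  -- the order is at least two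
  have hm2 : 2 ≤ m := by
    by_contra hlt
    have hm01 : m = 0 ∨ m = 1 := by omega
    rcases hm01 with rfl | rfl
    · have := hfac.self_of_nhds
      simp at this
      exact hk0 this.symm
    · have h1 : HasDerivAt (fun z => g z - g ζ) (k ζ) ζ := by
        have h2 : HasDerivAt (fun z => (z - ζ) ^ 1 • k z) (k ζ) ζ := by
          have h3 := ((hasDerivAt_id ζ).sub_const ζ).mul hk.differentiableAt.hasDerivAt
          simp only [id, sub_self, zero_mul, add_zero, one_mul] at h3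
          refine h3.congr_of_eventuallyEq ?_
          filter_upwards with z
          simp
        exact h2.congr_of_eventuallyEq hfac
      have h2 : HasDerivAt (fun z => g z - g ζ) (deriv g ζ) ζ :=
        (hg ζ).hasDerivAt.sub_const _
      rw [h] at h2
      exact hk0 (h1.unique h2)
  -- the root
  obtain ⟨a, ha⟩ : ∃ a : ℂ, a ^ m = k ζ := IsAlgClosed.exists_pow_nat_eq _ (by omega)
  have ha0 : a ≠ 0 := by
    rintro rfl
    rw [zero_pow (by omega)] at ha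
    exact hk0 ha.symm
  have hm0 : (m : ℂ) ≠ 0 := by
    have : m ≠ 0 := by omega
    exact_mod_cast this
  let r : ℂ → ℂ := fun z => a * Complex.exp (Complex.log (k z / k ζ) / m)
  have hquot : AnalyticAt ℂ (fun z => k z / k ζ) ζ := hk.div analyticAt_const hk0
  have hslit : k ζ / k ζ ∈ Complex.slitPlane := by
    rw [div_self hk0]; exact Complex.one_mem_slitPlane
  have hr : AnalyticAt ℂ r ζ := by
    refine analyticAt_const.mul ?_
    refine AnalyticAt.cexp ?_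
    exact (hquot.clog hslit).div analyticAt_const hm0
  have hr0 : r ζ = a := by
    simp only [r]
    rw [div_self hk0, Complex.log_one, zero_div, Complex.exp_zero, mul_one]
  have hrm : ∀ᶠ z in 𝓝 ζ, r z ^ m = k z := by
    have h1 : ∀ᶠ z in 𝓝 ζ, k z ≠ 0 := hk.continuousAt.eventually_ne hk0
    filter_upwards [h1] with z hz
    simp only [r]
    rw [mul_pow, ha, ← Complex.exp_nat_mul, mul_div_cancel₀ _ hm0, Complex.exp_log (div_ne_zero hz hk0)]
    rw [mul_div_cancel₀ _ hk0]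
  -- the local coordinate
  let φ : ℂ → ℂ := fun z => (z - ζ) * r z
  have hφ : AnalyticAt ℂ φ ζ := (analyticAt_id.sub analyticAt_const).mul hr
  have hφ0 : φ ζ = 0 := by simp [φ]
  have hφd : HasStrictDerivAt φ a ζ := by
    have h1 : HasStrictDerivAt φ (deriv φ ζ) ζ := hφ.hasStrictDerivAt
    have h2 : deriv φ ζ = a := by
      have h3 : HasDerivAt φ (1 * r ζ + (ζ - ζ) * deriv r ζ) ζ :=
        ((hasDerivAt_id ζ).sub_const ζ).mul hr.differentiableAt.hasDerivAt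
      rw [h3.deriv, hr0]
      ring
    rwa [h2] at h1
  have hmap : map φ (𝓝 ζ) = 𝓝 0 := by
    have := hφd.map_nhds_eq ha0
    rwa [hφ0] at this
  have hgood : ∀ᶠ z in 𝓝 ζ, ‖z - ζ‖ < ε ∧ g z - g ζ = φ z ^ m := by
    have h1 : ∀ᶠ z in 𝓝 ζ, ‖z - ζ‖ < ε := by
      have := Metric.ball_mem_nhds ζ hε
      filter_upwards [this] with z hz
      rwa [Metric.mem_ball, dist_eq_norm] at hz
    filter_upwards [h1, hfac, hrm] with z h2 h3 h4
    refine ⟨h2, ?_⟩
    rw [h3, smul_eq_mul, ← h4, ← mul_pow]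
  have himg : ∀ᶠ w in 𝓝 (0 : ℂ), ∃ z, ‖z - ζ‖ < ε ∧ g z - g ζ = φ z ^ m ∧ φ z = w := by
    rw [← hmap, eventually_map]
    filter_upwards [hgood] with z hz
    exact ⟨z, hz.1, hz.2, rfl⟩
  -- a root of unity
  obtain ⟨ω, hω, hω1⟩ : ∃ ω : ℂ, ω ^ m = 1 ∧ ω ≠ 1 := by
    have hp := Complex.isPrimitiveRoot_exp m (by omega)
    exact ⟨_, hp.pow_eq_one, hp.ne_one (by omega)⟩
  obtain ⟨δ, hδ, hball⟩ := Metric.eventually_nhds_iff.mp himg
  have hωn : ‖ω‖ = 1 := by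
    have := congrArg norm hω
    rw [norm_pow, norm_one] at this
    exact (pow_eq_one_iff_of_nonneg (norm_nonneg _) (by omega)).mp this
  have hw1 : dist ((δ / 2 : ℝ) : ℂ) 0 < δ := by
    rw [dist_zero_right, Complex.norm_real, Real.norm_eq_abs, abs_of_pos (by positivity)]
    linarith
  have hw2 : dist (ω * ((δ / 2 : ℝ) : ℂ)) 0 < δ := by
    rw [dist_zero_right, norm_mul, hωn, one_mul, Complex.norm_real, Real.norm_eq_abs,
      abs_of_pos (by positivity)]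
    linarith
  obtain ⟨z₁, h1, h2, h3⟩ := hball hw1
  obtain ⟨z₂, h4, h5, h6⟩ := hball hw2
  refine ⟨z₁, z₂, ?_, h1, h4, ?_⟩
  · rintro rfl
    rw [h3] at h6
    have hδ0 : ((δ / 2 : ℝ) : ℂ) ≠ 0 := by
      have : (δ / 2 : ℝ) ≠ 0 := by positivity
      exact_mod_cast this
    have : ω = 1 := by
      have h7 : (ω - 1) * ((δ / 2 : ℝ) : ℂ) = 0 := by linear_combination -h6
      rcases mul_eq_zero.mp h7 with h8 | h8
      · exact sub_eq_zero.mp h8
      · exact absurd h8 hδ0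
    exact hω1 this
  · have h7 : g z₁ - g ζ = g z₂ - g ζ := by
      rw [h2, h5, h3, h6, mul_pow, hω, one_mul]
    exact sub_left_injective h7

/-- open mapping theorem for pairs -/
theorem isOpen_pairs (g : ℂ → ℂ) (hg : Differentiable ℂ g) (hne : ∃ z w, g z ≠ g w) (W : Set (ℂ × ℂ))
    (hW : IsOpen W) : IsOpen {c : ℂ | ∃ p ∈ W, g p.1 = c ∧ g p.2 = c} := by
  have hop : ∀ z : ℂ, ∀ s ∈ 𝓝 z, g '' s ∈ 𝓝 (g z) := by
    intro z s hs
    rcases (hg.analyticAt z).eventually_constant_or_nhds_le_map_nhds with h | h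
    · exact absurd h (ev_ne g hg hne z (g z))
    · exact h (image_mem_map hs)
  rw [isOpen_iff_mem_nhds]
  rintro c ⟨⟨z₁, z₂⟩, hp, h1, h2⟩
  obtain ⟨s, hs, t, ht, hst⟩ := mem_nhds_prod_iff.mp (hW.mem_nhds hp)
  have e1 := hop z₁ s hs
  have e2 := hop z₂ t ht
  simp only at h1 h2
  rw [h1] at e1
  rw [h2] at e2
  filter_upwards [e1, e2] with c' h3 h4
  obtain ⟨x, hx, rfl⟩ := h3
  obtain ⟨y, hy, hxy⟩ := h4
  exact ⟨(x, y), hst ⟨hx, hy⟩, rfl, hxy⟩

end Pool.Agent.EHD
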